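import Pool.Agent.Lib.MP_f7c330_an.Gauss

/-!
# Dense spans in `X`
-/

namespace Pool.Agent.Lib.MP_f7c330_an

open Filter Topology Set
open scoped BoundedContinuousFunction

theorem dense_subtype {Y : Submodule ℂ P} (S : Set P) (hS : S ⊆ Y)
    (h : (Y : Set P) ⊆ closure (Submodule.span ℂ S : Set P)) :
    Dense ((Submodule.span ℂ ((Subtype.val : Y → P) ⁻¹' S) : Submodule ℂ Y) : Set Y) := by
  intro x
  rw [closure_subtype]
  have e : (Subtype.val '' ((Submodule.span ℂ ((Subtype.val : Y → P) ⁻¹' S) : Submodule ℂ Y) :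
      Set Y)) = (Submodule.span ℂ S : Set P) := by
    have h1 := Submodule.map_span Y.subtype ((Subtype.val : Y → P) ⁻¹' S)
    have h2 : Y.subtype '' ((Subtype.val : Y → P) ⁻¹' S) = S := by
      ext y
      constructor
      · rintro ⟨z, hz, rfl⟩; exact hz
      · intro hy; exact ⟨⟨y, hS hy⟩, hy, rfl⟩
    rw [h2] at h1
    rw [← h1]
    rfl
  rw [e]
  exact h x.2

/-- the derivative `w ↦ w e^{μ w}` of the exponentials -/
noncomputable def dP (μ : ℂ) (hμ : μ.re < 0) : P := fun r =>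
  BoundedContinuousFunction.ofNormedAddCommGroup
      (fun w : D r => (w : ℂ) * Complex.exp (μ * w))
      (by fun_prop) (Real.exp (4 * r * ‖μ‖) * ((Nat.factorial 1 : ℝ) / (-μ.re) ^ 1))
      (fun w => by
        have hμ' : 0 < -μ.re := by linarith
        have h4 := pow_mul_exp_le 1 hμ' (norm_nonneg (w : ℂ))
        rw [neg_neg] at h4
        have h1 : ‖Complex.exp (μ * w)‖ ≤
            Real.exp (4 * r * ‖μ‖) * Real.exp (μ.re * ‖(w : ℂ)‖) := by
          rw [Complex.norm_exp, ← Real.exp_add]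
          exact Real.exp_le_exp.2 (re_mul_le w.2 hμ)
        rw [norm_mul]
        calc ‖(w : ℂ)‖ * ‖Complex.exp (μ * w)‖
            ≤ ‖(w : ℂ)‖ * (Real.exp (4 * r * ‖μ‖) * Real.exp (μ.re * ‖(w : ℂ)‖)) := by gcongr
          _ = Real.exp (4 * r * ‖μ‖) * (‖(w : ℂ)‖ ^ 1 * Real.exp (μ.re * ‖(w : ℂ)‖)) := by ring
          _ ≤ _ := by gcongr)

theorem dP_apply {μ : ℂ} (hμ : μ.re < 0) (r : ℕ) (w : D r) :
    dP μ hμ r w = (w : ℂ) * Complex.exp (μ * w) := rfl

theorem tendsto_slope_gP {μ : ℂ} (hμ : μ.re < 0) :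
    Tendsto (fun t : ℂ => t⁻¹ • (gP 0 (μ + t) - gP 0 μ)) (𝓝[≠] 0) (𝓝 (dP μ hμ)) := by
  rw [tendsto_pi_nhds]
  intro r
  rw [tendsto_iff_norm_sub_tendsto_zero]
  have hμ' : 0 < -μ.re / 2 := by linarith
  set C : ℝ := Real.exp (4 * r * ‖μ‖) * ((Nat.factorial 2 : ℝ) / (-μ.re / 2) ^ 2) with hC
  have hC0 : 0 ≤ C := by positivity
  have hlim : Tendsto (fun t : ℂ => C * ‖t‖) (𝓝[≠] 0) (𝓝 0) := by
    have h1 : Tendsto (fun t : ℂ => C * ‖t‖) (𝓝 0) (𝓝 (C * ‖(0 : ℂ)‖)) :=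
      (continuous_const.mul continuous_norm).tendsto 0
    rw [norm_zero, mul_zero] at h1
    exact h1.mono_left nhdsWithin_le_nhds
  refine squeeze_zero' (Eventually.of_forall fun n => norm_nonneg _) ?_ hlim
  have hsmall : ∀ᶠ t : ℂ in 𝓝[≠] 0, ‖t‖ ≤ -μ.re / 2 := by
    apply eventually_nhdsWithin_of_eventually_nhds
    have := Metric.closedBall_mem_nhds (0 : ℂ) hμ'
    filter_upwards [this] with t ht
    simpa using ht
  filter_upwards [hsmall, self_mem_nhdsWithin] with t ht ht0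
  have ht0' : t ≠ 0 := ht0
  have htn : 0 < ‖t‖ := norm_pos_iff.2 ht0'
  have hμt : (μ + t).re < 0 := by
    rw [Complex.add_re]
    have := (le_abs_self _).trans (Complex.abs_re_le_norm t)
    linarith
  rw [BoundedContinuousFunction.norm_le (by positivity)]
  intro w
  rw [BoundedContinuousFunction.sub_apply, dP_apply, Pi.smul_apply, Pi.sub_apply,
    BoundedContinuousFunction.smul_apply, BoundedContinuousFunction.sub_apply,
    eP_apply hμt, eP_apply hμ, smul_eq_mul]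
  have e1 : t⁻¹ * (Complex.exp ((μ + t) * w) - Complex.exp (μ * w)) -
      (w : ℂ) * Complex.exp (μ * w) =
      Complex.exp (μ * w) * (t⁻¹ * (Complex.exp (t * w) - 1 - t * w)) := by
    have : Complex.exp ((μ + t) * w) = Complex.exp (μ * w) * Complex.exp (t * w) := by
      rw [← Complex.exp_add]; congr 1; ring
    rw [this]
    field_simp
  rw [e1, norm_mul, norm_mul, norm_inv]
  have h1 : ‖Complex.exp (μ * w)‖ ≤ Real.exp (4 * r * ‖μ‖) * Real.exp (μ.re * ‖(w : ℂ)‖) := by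
    rw [Complex.norm_exp, ← Real.exp_add]
    exact Real.exp_le_exp.2 (re_mul_le w.2 hμ)
  have h2 : ‖Complex.exp (t * w) - 1 - t * w‖ ≤
      (‖t‖ * ‖(w : ℂ)‖) ^ 2 * Real.exp (-μ.re / 2 * ‖(w : ℂ)‖) := by
    have h3 := Complex.norm_exp_sub_sum_le_norm_mul_exp (t * w) 2
    have h4 : ∑ m ∈ Finset.range 2, (t * w) ^ m / (m.factorial : ℂ) = 1 + t * w := by
      simp [Finset.sum_range_succ]
    rw [h4, norm_mul] at h3
    have h5 : Complex.exp (t * w) - 1 - t * w = Complex.exp (t * w) - (1 + t * w) := by ring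
    rw [h5]
    refine h3.trans ?_
    gcongr
  have h4 := pow_mul_exp_le 2 hμ' (norm_nonneg (w : ℂ))
  have h6 : Real.exp (μ.re * ‖(w : ℂ)‖) * Real.exp (-μ.re / 2 * ‖(w : ℂ)‖) =
      Real.exp (-(-μ.re / 2) * ‖(w : ℂ)‖) := by
    rw [← Real.exp_add]; congr 1; ring
  calc ‖Complex.exp (μ * w)‖ * (‖t‖⁻¹ * ‖Complex.exp (t * w) - 1 - t * w‖)
      ≤ (Real.exp (4 * r * ‖μ‖) * Real.exp (μ.re * ‖(w : ℂ)‖)) *
        (‖t‖⁻¹ * ((‖t‖ * ‖(w : ℂ)‖) ^ 2 * Real.exp (-μ.re / 2 * ‖(w : ℂ)‖))) := by gcongr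
    _ = Real.exp (4 * r * ‖μ‖) * (‖(w : ℂ)‖ ^ 2 *
        (Real.exp (μ.re * ‖(w : ℂ)‖) * Real.exp (-μ.re / 2 * ‖(w : ℂ)‖))) * ‖t‖ := by
        field_simp
    _ = Real.exp (4 * r * ‖μ‖) * (‖(w : ℂ)‖ ^ 2 * Real.exp (-(-μ.re / 2) * ‖(w : ℂ)‖)) * ‖t‖ := by
        rw [h6]
    _ ≤ Real.exp (4 * r * ‖μ‖) * ((Nat.factorial 2 : ℝ) / (-μ.re / 2) ^ 2) * ‖t‖ := by gcongr
    _ = C * ‖t‖ := by rw [hC]

theorem isOpen_halfPlane : IsOpen {μ : ℂ | μ.re < 0} :=
  isOpen_lt Complex.continuous_re continuous_const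

theorem differentiableOn_functional (φ : P →L[ℂ] ℂ) :
    DifferentiableOn ℂ (fun μ => φ (gP 0 μ)) {μ : ℂ | μ.re < 0} := by
  intro μ hμ
  have hμ' : μ.re < 0 := hμ
  have h : HasDerivAt (fun μ => φ (gP 0 μ)) (φ (dP μ hμ')) μ := by
    rw [hasDerivAt_iff_tendsto_slope_zero]
    have h1 := (φ.continuous.tendsto (dP μ hμ')).comp (tendsto_slope_gP hμ')
    refine h1.congr fun t => ?_
    simp
  exact h.differentiableAt.differentiableWithinAt

/-- the exponentials depend continuously on `μ` -/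
theorem continuousAt_gP {μ : ℂ} (hμ : μ.re < 0) : ContinuousAt (fun μ => gP 0 μ) μ := by
  have h1 : Tendsto (fun t : ℂ => t • (t⁻¹ • (gP 0 (μ + t) - gP 0 μ)) + gP 0 μ) (𝓝[≠] 0)
      (𝓝 ((0 : ℂ) • (dP μ hμ) + gP 0 μ)) :=
    ((tendsto_id.mono_left nhdsWithin_le_nhds).smul (tendsto_slope_gP hμ)).add tendsto_const_nhds
  rw [zero_smul, zero_add] at h1
  have h2 : Tendsto (fun t : ℂ => gP 0 (μ + t)) (𝓝[≠] 0) (𝓝 (gP 0 μ)) := by
    refine h1.congr' ?_
    filter_upwards [self_mem_nhdsWithin] with t ht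
    have ht' : t ≠ 0 := ht
    rw [smul_smul, mul_inv_cancel₀ ht', one_smul, sub_add_cancel]
  rw [continuousAt_iff_punctured_nhds]
  have h3 : Tendsto (fun x : ℂ => x - μ) (𝓝[≠] μ) (𝓝[≠] 0) := by
    refine tendsto_nhdsWithin_of_tendsto_nhds_of_eventually_within _ ?_ ?_
    · have : Tendsto (fun x : ℂ => x - μ) (𝓝 μ) (𝓝 (μ - μ)) :=
        (continuous_id.sub continuous_const).tendsto μ
      rw [sub_self] at this
      exact this.mono_left nhdsWithin_le_nhds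
    · filter_upwards [self_mem_nhdsWithin] with x hx
      exact sub_ne_zero.2 hx
  have h4 := h2.comp h3
  refine h4.congr fun x => ?_
  simp

/-- The closed span of the exponentials with parameters in an open set contains all of them. -/
theorem X_subset_closure_span {Ω : Set ℂ} (hΩ : IsOpen Ω) (hne : Ω.Nonempty)
    (hΩ' : Ω ⊆ {μ : ℂ | μ.re < 0}) :
    (X : Set P) ⊆ closure (Submodule.span ℂ {x | ∃ μ ∈ Ω, x = gP 0 μ} : Set P) := by
  set Z : Submodule ℂ P := (Submodule.span ℂ {x | ∃ μ ∈ Ω, x = gP 0 μ}).topologicalClosure with hZ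
  have hZc : IsClosed (Z : Set P) := Submodule.isClosed_topologicalClosure _
  suffices h : V ≤ Z by
    have h1 : X ≤ Z := V.topologicalClosure_minimal h hZc
    exact h1
  refine Submodule.span_le.2 ?_
  rintro x ⟨ν, hν, rfl⟩
  by_contra hcon
  obtain ⟨φ, u, h1, h2⟩ := RCLike.geometric_hahn_banach_closed_point (𝕜 := ℂ)
    ((Z.restrictScalars ℝ).convex) hZc hcon
  -- `φ` vanishes on `Z`
  have hvan : ∀ z ∈ Z, φ z = 0 := by
    intro z hz
    by_contra hne0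
    have h3 := h1 (((((|u| + 1 : ℝ) : ℂ)) / φ z) • z) (Z.smul_mem _ hz)
    rw [map_smul, smul_eq_mul, div_mul_cancel₀ _ hne0] at h3
    simp at h3
    linarith [le_abs_self u]
  have hu : 0 < u := by
    have := h1 0 (Z.zero_mem)
    simpa using this
  obtain ⟨μ₀, hμ₀⟩ := hne
  have han : AnalyticOnNhd ℂ (fun μ => φ (gP 0 μ)) {μ : ℂ | μ.re < 0} :=
    (differentiableOn_functional φ).analyticOnNhd isOpen_halfPlane
  have hpre : IsPreconnected {μ : ℂ | μ.re < 0} := (convex_halfSpace_re_lt 0).isPreconnected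
  have hev : (fun μ => φ (gP 0 μ)) =ᶠ[𝓝 μ₀] 0 := by
    filter_upwards [hΩ.mem_nhds hμ₀] with μ hμ
    exact hvan _ (Submodule.le_topologicalClosure _ (Submodule.subset_span ⟨μ, hμ, rfl⟩))
  have := han.eqOn_zero_of_preconnected_of_eventuallyEq_zero hpre (hΩ' hμ₀) hev hν
  have h4 : φ (gP 0 ν) = 0 := this
  rw [h4] at h2
  simp at h2
  linarith

/-- The span of the Gaussians is dense. -/
theorem X_subset_closure_gauss :
    (X : Set P) ⊆ closure (Submodule.span ℂ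
      {x | ∃ (δ : ℝ) (μ : ℂ), 0 < δ ∧ μ.re < 0 ∧ x = gP δ μ} : Set P) := by
  set Z : Submodule ℂ P := (Submodule.span ℂ
    {x | ∃ (δ : ℝ) (μ : ℂ), 0 < δ ∧ μ.re < 0 ∧ x = gP δ μ}).topologicalClosure with hZ
  have hZc : IsClosed (Z : Set P) := Submodule.isClosed_topologicalClosure _
  suffices h : V ≤ Z by
    have h1 : X ≤ Z := V.topologicalClosure_minimal h hZc
    exact h1
  refine Submodule.span_le.2 ?_
  rintro x ⟨ν, hν, rfl⟩
  refine hZc.mem_of_tendsto (tendsto_gP_zero hν) (Eventually.of_forall fun n => ?_)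
  exact Submodule.le_topologicalClosure _
    (Submodule.subset_span ⟨1 / ((n : ℝ) + 1), ν, by positivity, hν, rfl⟩)

end Pool.Agent.Lib.MP_f7c330_an
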