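import Mathlib

/-!
# Generic linear dynamics: a hypercyclicity criterion
-/

namespace Pool.Agent.Lib.MP_f7c330_an

open Filter Topology Set

/-- Birkhoff transitivity: if for all nonempty open `U V` some power of `S` maps a point of `U`
into `V`, then there is a dense orbit. -/
theorem exists_dense_orbit {X : Type*} [TopologicalSpace X] [BaireSpace X]
    [SecondCountableTopology X] [Nonempty X] (S : X → X) (hS : Continuous S)
    (hT : ∀ U V : Set X, IsOpen U → IsOpen V → U.Nonempty → V.Nonempty →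
      ∃ n : ℕ, ∃ x ∈ U, S^[n] x ∈ V) :
    ∃ x, Dense (range fun n : ℕ => S^[n] x) := by
  let B := TopologicalSpace.countableBasis X
  have hB : TopologicalSpace.IsTopologicalBasis B := TopologicalSpace.isBasis_countableBasis X
  have hBc : B.Countable := TopologicalSpace.countable_countableBasis X
  have hcont : ∀ n : ℕ, Continuous (S^[n]) := fun n => hS.iterate n
  have key : Dense (⋂ V ∈ B, ⋃ n : ℕ, S^[n] ⁻¹' V) := by
    refine dense_biInter_of_isOpen (fun V hV => ?_) hBc (fun V hV => ?_)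
    · exact isOpen_iUnion fun n => (hB.isOpen hV).preimage (hcont n)
    · rw [dense_iff_inter_open]
      intro U hU hUn
      obtain ⟨n, x, hxU, hxV⟩ := hT U V hU (hB.isOpen hV) hUn
        (TopologicalSpace.nonempty_of_mem_countableBasis hV)
      exact ⟨x, hxU, mem_iUnion.2 ⟨n, hxV⟩⟩
  obtain ⟨x, hx⟩ := key.nonempty
  refine ⟨x, ?_⟩
  rw [hB.dense_iff]
  intro V hV _
  have := mem_iInter₂.1 hx V hV
  obtain ⟨n, hn⟩ := mem_iUnion.1 this
  exact ⟨S^[n] x, hn, n, rfl⟩

/-- A hypercyclicity criterion for invertible operators. -/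
theorem criterion {X : Type*} [AddCommGroup X] [Module ℂ X] [TopologicalSpace X]
    [ContinuousAdd X] [BaireSpace X] [SecondCountableTopology X]
    (S R : X →L[ℂ] X) (hSR : ∀ x, S (R x) = x) (D₁ D₂ : Set X) (h₁ : Dense D₁) (h₂ : Dense D₂)
    (n : ℕ → ℕ) (hD₁ : ∀ x ∈ D₁, Tendsto (fun k => (S ^ (n k)) x) atTop (𝓝 0))
    (hD₂ : ∀ y ∈ D₂, Tendsto (fun k => (R ^ (n k)) y) atTop (𝓝 0)) :
    ∃ x, Dense (range fun m : ℕ => (S ^ m) x) := by
  have hpow : ∀ (A : X →L[ℂ] X) (m : ℕ) (x : X), (A ^ m) x = A^[m] x := by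
    intro A m
    induction m with
    | zero => intro x; simp
    | succ m ih =>
      intro x
      rw [pow_succ, Function.iterate_succ_apply, ← ih]
      rfl
  have hinv : ∀ (m : ℕ) (x : X), (S ^ m) ((R ^ m) x) = x := by
    intro m
    induction m with
    | zero => intro x; simp
    | succ m ih =>
      intro x
      rw [pow_succ S, pow_succ' R]
      change (S ^ m) (S (R ((R ^ m) x))) = x
      rw [hSR, ih]
  obtain ⟨x, hx⟩ := exists_dense_orbit S S.continuous (by
    intro U V hU hV hUn hVn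
    obtain ⟨x, hxU, hx⟩ := h₁.inter_open_nonempty U hU hUn
    obtain ⟨y, hyV, hy⟩ := h₂.inter_open_nonempty V hV hVn
    have t1 : Tendsto (fun k => x + (R ^ (n k)) y) atTop (𝓝 (x + 0)) :=
      tendsto_const_nhds.add (hD₂ y hy)
    have t2 : Tendsto (fun k => (S ^ (n k)) x + y) atTop (𝓝 (0 + y)) :=
      (hD₁ x hx).add tendsto_const_nhds
    rw [add_zero] at t1
    rw [zero_add] at t2
    have e1 := t1.eventually (hU.mem_nhds hxU)
    have e2 := t2.eventually (hV.mem_nhds hyV)
    obtain ⟨k, hk1, hk2⟩ := (e1.and e2).exists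
    refine ⟨n k, x + (R ^ (n k)) y, hk1, ?_⟩
    rw [← hpow, map_add, hinv]
    exact hk2)
  refine ⟨x, ?_⟩
  simpa only [hpow] using hx

end Pool.Agent.Lib.MP_f7c330_an
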