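import Pool.Agent.Lib.MP_f7c330_an.Space

/-!
# Gaussians lie in `X`
-/

namespace Pool.Agent.Lib.MP_f7c330_an

open Filter Topology Set
open scoped BoundedContinuousFunction

theorem exists_cos_pow (c : ℝ) (k : ℕ) : ∀ μ : ℂ, μ.re < 0 → ∃ x ∈ V, ∀ (r : ℕ) (w : D r),
    x r w = Complex.exp (μ * w) * Complex.cos (c * w) ^ k := by
  induction k with
  | zero =>
    intro μ hμ
    refine ⟨gP 0 μ, gP_mem_V hμ, fun r w => ?_⟩
    rw [eP_apply hμ]; simp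
  | succ k ih =>
    intro μ hμ
    obtain ⟨x, hx, hx'⟩ := ih (μ + c * Complex.I) (by simpa using hμ)
    obtain ⟨y, hy, hy'⟩ := ih (μ - c * Complex.I) (by simpa using hμ)
    refine ⟨(1 / 2 : ℂ) • (x + y), V.smul_mem _ (V.add_mem hx hy), fun r w => ?_⟩
    rw [Pi.smul_apply, Pi.add_apply, BoundedContinuousFunction.smul_apply,
      BoundedContinuousFunction.add_apply, hx', hy', pow_succ]
    have e : Complex.cos (c * (w : ℂ)) =
      (Complex.exp (c * w * Complex.I) + Complex.exp (-(c * w) * Complex.I)) / 2 := rfl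
    have e1 : Complex.exp ((μ + c * Complex.I) * w) =
        Complex.exp (μ * w) * Complex.exp (c * w * Complex.I) := by
      rw [← Complex.exp_add]; congr 1; ring
    have e2 : Complex.exp ((μ - c * Complex.I) * w) =
        Complex.exp (μ * w) * Complex.exp (-(c * w) * Complex.I) := by
      rw [← Complex.exp_add]; congr 1; ring
    rw [e1, e2]
    set C := Complex.cos (c * (w : ℂ)) with hC
    rw [smul_eq_mul, e]
    ring

theorem norm_cos_le (z : ℂ) : ‖Complex.cos z‖ ≤ Real.exp (z.im ^ 2 / 2) := by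
  refine le_trans ?_ (Real.cosh_le_exp_half_sq z.im)
  rw [Complex.cos, Real.cosh_eq, norm_div]
  have h2 : ‖(2 : ℂ)‖ = 2 := by simp
  rw [h2]
  apply div_le_div_of_nonneg_right _ (by norm_num)
  refine (norm_add_le _ _).trans ?_
  rw [Complex.norm_exp, Complex.norm_exp]
  simp
  linarith

theorem norm_exp_neg_sq_half_le (z : ℂ) : ‖Complex.exp (-z ^ 2 / 2)‖ ≤ Real.exp (z.im ^ 2 / 2) := by
  rw [Complex.norm_exp]
  apply Real.exp_le_exp.2
  have : (-z ^ 2 / 2).re = -(z.re ^ 2 - z.im ^ 2) / 2 := by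
    have h : (-z ^ 2 / 2 : ℂ) = ((1 / 2 : ℝ) : ℂ) * (-z ^ 2) := by push_cast; ring
    rw [h, Complex.re_ofReal_mul]
    simp [pow_two, Complex.mul_re]
    ring
  rw [this]
  nlinarith [sq_nonneg z.re]

theorem cos_sub_exp_le {z : ℂ} (hz : |z.im| ≤ 1) :
    ‖Complex.cos z - Complex.exp (-z ^ 2 / 2)‖ ≤ 4 * ‖z‖ ^ 4 := by
  rcases le_total ‖z‖ 1 with h | h
  · have h1 := Complex.cos_bound h
    have h0 : ‖-z ^ 2 / 2‖ = ‖z‖ ^ 2 / 2 := by
      rw [norm_div, norm_neg, norm_pow]; simp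
    have h2 : ‖-z ^ 2 / 2‖ ≤ 1 := by
      rw [h0]
      have : ‖z‖ ^ 2 ≤ 1 := pow_le_one₀ (norm_nonneg _) h
      linarith
    have h3 := Complex.norm_exp_sub_one_sub_id_le h2
    rw [h0] at h3
    have e : Complex.cos z - Complex.exp (-z ^ 2 / 2) =
      (Complex.cos z - (1 - z ^ 2 / 2)) - (Complex.exp (-z ^ 2 / 2) - 1 - (-z ^ 2 / 2)) := by ring
    rw [e]
    refine (norm_sub_le _ _).trans ?_
    have h4 : (‖z‖ ^ 2 / 2) ^ 2 = ‖z‖ ^ 4 / 4 := by ring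
    rw [h4] at h3
    nlinarith [pow_nonneg (norm_nonneg z) 4]
  · have h1 := norm_cos_le z
    have h2 := norm_exp_neg_sq_half_le z
    have h3 : Real.exp (z.im ^ 2 / 2) ≤ 2 := by
      have : z.im ^ 2 ≤ 1 := by
        rw [← sq_abs]; exact pow_le_one₀ (abs_nonneg _) hz
      have h5 : Real.exp (z.im ^ 2 / 2) ≤ Real.exp (1 / 2) := Real.exp_le_exp.2 (by linarith)
      have h6 : Real.exp (1 / 2) ≤ 2 := by
        have h7 : Real.exp (1 / 2) ^ 2 = Real.exp 1 := by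
          rw [← Real.exp_nat_mul]; norm_num
        have h8 := Real.exp_one_lt_d9
        nlinarith [Real.exp_pos (1 / 2)]
      linarith
    have h4 : 1 ≤ ‖z‖ ^ 4 := one_le_pow₀ h
    refine (norm_sub_le _ _).trans ?_
    linarith

theorem norm_pow_sub_pow_le {A B : ℂ} {M : ℝ} (hM : 1 ≤ M) (hA : ‖A‖ ≤ M) (hB : ‖B‖ ≤ M) (n : ℕ) :
    ‖A ^ n - B ^ n‖ ≤ n * M ^ n * ‖A - B‖ := by
  rw [← geom_sum₂_mul, norm_mul]
  apply mul_le_mul_of_nonneg_right _ (norm_nonneg _)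
  refine (norm_sum_le _ _).trans ?_
  have h : ∀ i ∈ Finset.range n, ‖A ^ i * B ^ (n - 1 - i)‖ ≤ M ^ n := by
    intro i hi
    rw [Finset.mem_range] at hi
    rw [norm_mul, norm_pow, norm_pow]
    calc ‖A‖ ^ i * ‖B‖ ^ (n - 1 - i) ≤ M ^ i * M ^ (n - 1 - i) := by gcongr
      _ = M ^ (i + (n - 1 - i)) := by rw [pow_add]
      _ ≤ M ^ n := pow_le_pow_right₀ hM (by omega)
  refine (Finset.sum_le_sum h).trans ?_
  simp

/-- The Gaussian-exponentials lie in `X`. -/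
theorem gauss_mem_X {δ : ℝ} {μ : ℂ} (hδ : 0 < δ) (hμ : μ.re < 0) : gP δ μ ∈ X := by
  have hex : ∀ n : ℕ, ∃ x ∈ V, ∀ (r : ℕ) (w : D r), x r w =
      Complex.exp (μ * w) * Complex.cos ((Real.sqrt (2 * δ / (n + 1)) : ℝ) * w) ^ (n + 1) :=
    fun n => exists_cos_pow _ _ μ hμ
  choose x hxV hx using hex
  have hmem : ∀ n, x n ∈ (X : Set P) := fun n => V_le_X (hxV n)
  refine isClosed_X.mem_of_tendsto (b := atTop) (f := x) ?_ (Eventually.of_forall hmem)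
  rw [tendsto_pi_nhds]
  intro r
  rw [tendsto_iff_norm_sub_tendsto_zero]
  have hμ' : 0 < -μ.re := by linarith
  set C : ℝ := Real.exp (4 * r * ‖μ‖) * Real.exp (δ * r ^ 2) * (16 * δ ^ 2) *
    ((Nat.factorial 4 : ℝ) / (-μ.re) ^ 4) with hC
  have hC0 : 0 ≤ C := by positivity
  have hlim : Tendsto (fun n : ℕ => C * (1 / ((n : ℝ) + 1))) atTop (𝓝 0) := by
    have := (tendsto_one_div_add_atTop_nhds_zero_nat (𝕜 := ℝ)).const_mul C
    simpa using this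
  -- eventually the rescaled strip is thin
  have hthin : ∀ᶠ n : ℕ in atTop, 2 * δ * (r : ℝ) ^ 2 ≤ (n : ℝ) + 1 := by
    filter_upwards [eventually_ge_atTop (⌈2 * δ * (r : ℝ) ^ 2⌉₊)] with n hn
    have := Nat.le_ceil (2 * δ * (r : ℝ) ^ 2)
    have h2 : ((⌈2 * δ * (r : ℝ) ^ 2⌉₊ : ℕ) : ℝ) ≤ n := by exact_mod_cast hn
    linarith
  refine squeeze_zero' (Eventually.of_forall fun n => norm_nonneg _) ?_ hlim
  filter_upwards [hthin] with n hn
  rw [BoundedContinuousFunction.norm_le (by positivity)]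
  intro w
  rw [BoundedContinuousFunction.sub_apply, gP_apply hδ.le hμ, hx]
  have hn0 : (0 : ℝ) < (n : ℝ) + 1 := by positivity
  set c : ℝ := Real.sqrt (2 * δ / (n + 1)) with hc
  have hc2 : c ^ 2 = 2 * δ / (n + 1) := Real.sq_sqrt (by positivity)
  set ζ : ℂ := (c : ℂ) * w with hζ
  have him : ζ.im ^ 2 ≤ 2 * δ / (n + 1) * r ^ 2 := by
    have h1 : ζ.im = c * (w : ℂ).im := by rw [hζ, Complex.im_ofReal_mul]
    have h2 := abs_im_le w.2
    have h3 : (w : ℂ).im ^ 2 ≤ (r : ℝ) ^ 2 :=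
      sq_le_sq' (by linarith [(abs_le.1 h2).1]) (abs_le.1 h2).2
    rw [h1, mul_pow, hc2]
    exact mul_le_mul_of_nonneg_left h3 (by positivity)
  have him1 : |ζ.im| ≤ 1 := by
    rw [← sq_le_one_iff_abs_le_one]
    refine him.trans ?_
    rw [div_mul_eq_mul_div, div_le_one hn0]
    exact hn
  set M : ℝ := Real.exp (ζ.im ^ 2 / 2) with hM
  have hM1 : 1 ≤ M := Real.one_le_exp (by positivity)
  have hMn : M ^ (n + 1) ≤ Real.exp (δ * r ^ 2) := by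
    rw [hM, ← Real.exp_nat_mul]
    apply Real.exp_le_exp.2
    push_cast
    have : ((n : ℝ) + 1) * (2 * δ / (n + 1) * r ^ 2) = 2 * (δ * r ^ 2) := by
      field_simp
    have h2 := mul_le_mul_of_nonneg_left him hn0.le
    rw [this] at h2
    linarith
  have hB : Complex.exp (-ζ ^ 2 / 2) ^ (n + 1) = Complex.exp (-(δ : ℂ) * (w : ℂ) ^ 2) := by
    rw [← Complex.exp_nat_mul]
    congr 1
    have h3 : ζ ^ 2 = ((2 * δ / (n + 1) : ℝ) : ℂ) * (w : ℂ) ^ 2 := by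
      rw [hζ, mul_pow, ← hc2]; push_cast; ring
    rw [h3]
    push_cast
    have h4 : (n : ℂ) + 1 ≠ 0 := by exact_mod_cast hn0.ne'
    field_simp
  have key := norm_pow_sub_pow_le hM1 (norm_cos_le ζ) (norm_exp_neg_sq_half_le ζ) (n + 1)
  rw [hB] at key
  have hζn : ‖ζ‖ ^ 4 = (2 * δ / (n + 1)) ^ 2 * ‖(w : ℂ)‖ ^ 4 := by
    rw [hζ, norm_mul, mul_pow, Complex.norm_real]
    have : ‖c‖ ^ 4 = (c ^ 2) ^ 2 := by
      rw [Real.norm_eq_abs]
      have : |c| ^ 4 = (|c| ^ 2) ^ 2 := by ring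
      rw [this, sq_abs]
    rw [this, hc2]
  have key2 : ‖Complex.cos ζ ^ (n + 1) - Complex.exp (-(δ : ℂ) * (w : ℂ) ^ 2)‖ ≤
      Real.exp (δ * r ^ 2) * (16 * δ ^ 2) * ‖(w : ℂ)‖ ^ 4 * (1 / ((n : ℝ) + 1)) := by
    refine key.trans ?_
    calc ((n + 1 : ℕ) : ℝ) * M ^ (n + 1) * ‖Complex.cos ζ - Complex.exp (-ζ ^ 2 / 2)‖
        ≤ ((n + 1 : ℕ) : ℝ) * Real.exp (δ * r ^ 2) * (4 * ‖ζ‖ ^ 4) := by
          have := cos_sub_exp_le him1
          gcongr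
      _ = Real.exp (δ * r ^ 2) * (16 * δ ^ 2) * ‖(w : ℂ)‖ ^ 4 * (1 / ((n : ℝ) + 1)) := by
          rw [hζn]; push_cast; field_simp; ring
  have e1 : Complex.exp (μ * w) * Complex.cos ζ ^ (n + 1) -
      Complex.exp (-(δ : ℂ) * (w : ℂ) ^ 2 + μ * w) =
      Complex.exp (μ * w) * (Complex.cos ζ ^ (n + 1) - Complex.exp (-(δ : ℂ) * (w : ℂ) ^ 2)) := by
    rw [Complex.exp_add]; ring
  rw [e1, norm_mul]
  have h1 : ‖Complex.exp (μ * w)‖ ≤ Real.exp (4 * r * ‖μ‖) * Real.exp (μ.re * ‖(w : ℂ)‖) := by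
    rw [Complex.norm_exp, ← Real.exp_add]
    exact Real.exp_le_exp.2 (re_mul_le w.2 hμ)
  have h4 := pow_mul_exp_le 4 hμ' (norm_nonneg (w : ℂ))
  rw [neg_neg] at h4
  calc ‖Complex.exp (μ * w)‖ * ‖Complex.cos ζ ^ (n + 1) - Complex.exp (-(δ : ℂ) * (w : ℂ) ^ 2)‖
      ≤ (Real.exp (4 * r * ‖μ‖) * Real.exp (μ.re * ‖(w : ℂ)‖)) *
        (Real.exp (δ * r ^ 2) * (16 * δ ^ 2) * ‖(w : ℂ)‖ ^ 4 * (1 / ((n : ℝ) + 1))) :=
        mul_le_mul h1 key2 (norm_nonneg _) (by positivity)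
    _ = Real.exp (4 * r * ‖μ‖) * Real.exp (δ * r ^ 2) * (16 * δ ^ 2) *
        (‖(w : ℂ)‖ ^ 4 * Real.exp (μ.re * ‖(w : ℂ)‖)) * (1 / ((n : ℝ) + 1)) := by ring
    _ ≤ Real.exp (4 * r * ‖μ‖) * Real.exp (δ * r ^ 2) * (16 * δ ^ 2) *
        ((Nat.factorial 4 : ℝ) / (-μ.re) ^ 4) * (1 / ((n : ℝ) + 1)) := by gcongr
    _ = C * (1 / ((n : ℝ) + 1)) := by rw [hC]

end Pool.Agent.Lib.MP_f7c330_an
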