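import Pool.Agent.Lib.MP_f7c330_an.DenseSpan

/-!
# The Frechet space structure and the translation group on `X`
-/

namespace Pool.Agent.Lib.MP_f7c330_an

open Filter Topology Set
open scoped BoundedContinuousFunction Uniformity

instance instCompleteX : CompleteSpace X := isClosed_X.completeSpace_coe

instance instUAGX : IsUniformAddGroup X :=
  inferInstanceAs (IsUniformAddGroup X.toAddSubgroup)

instance instCGX : (𝓤 X).IsCountablyGenerated := by
  rw [uniformity_subtype]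
  infer_instance

instance instLCX : LocallyConvexSpace ℝ X :=
  Topology.IsInducing.locallyConvexSpace (f := X.subtype.restrictScalars ℝ) .subtypeVal

instance instSepX : TopologicalSpace.SeparableSpace X := by
  have h1 : TopologicalSpace.IsSeparable ((fun μ => gP 0 μ) '' {μ : ℂ | μ.re < 0}) := by
    apply ContinuousOn.isSeparable_image
    · intro μ hμ
      exact (continuousAt_gP hμ).continuousWithinAt
    · exact TopologicalSpace.IsSeparable.of_separableSpace _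
  have h2 : {x | ∃ μ : ℂ, μ.re < 0 ∧ x = gP 0 μ} = (fun μ => gP 0 μ) '' {μ : ℂ | μ.re < 0} := by
    ext x
    constructor
    · rintro ⟨μ, hμ, rfl⟩; exact ⟨μ, hμ, rfl⟩
    · rintro ⟨μ, hμ, rfl⟩; exact ⟨μ, hμ, rfl⟩
  have h3 : TopologicalSpace.IsSeparable (X : Set P) := by
    have := (h1.span (R := ℂ)).closure
    rw [← h2] at this
    exact this
  exact h3.separableSpace

instance instSCX : SecondCountableTopology X := UniformSpace.secondCountable_of_separable X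

instance instBaireX : BaireSpace X := inferInstance

/-- translation map between the domains -/
def shiftMap (r k : ℕ) (z : ℂ) (hz : ‖z‖ ≤ k) : C(D r, D (r + k)) :=
  ⟨fun w => ⟨w + z, add_mem_D w.2 hz⟩, by fun_prop⟩

/-- translation on `P` -/
noncomputable def shift (k : ℕ) (z : ℂ) (hz : ‖z‖ ≤ k) : P →L[ℂ] P :=
  ContinuousLinearMap.pi fun r =>
    (BoundedContinuousFunction.compContinuousCLM ℂ ℂ (shiftMap r k z hz)).comp
      (ContinuousLinearMap.proj (r + k))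

theorem shift_apply (k : ℕ) (z : ℂ) (hz : ‖z‖ ≤ k) (x : P) (r : ℕ) (w : D r) :
    shift k z hz x r w = x (r + k) ⟨w + z, add_mem_D w.2 hz⟩ := rfl

/-- translation on `P` -/
noncomputable def TP (z : ℂ) : P →L[ℂ] P := shift ⌈‖z‖⌉₊ z (Nat.le_ceil _)

theorem TP_gP {δ : ℝ} {μ : ℂ} (hδ : 0 ≤ δ) (hμ : μ.re < 0) (z : ℂ) (r : ℕ) (w : D r) :
    TP z (gP δ μ) r w = Complex.exp (-(δ : ℂ) * ((w : ℂ) + z) ^ 2 + μ * (w + z)) := by
  rw [TP, shift_apply, gP_apply hδ hμ]

theorem TP_eP {μ : ℂ} (hμ : μ.re < 0) (z : ℂ) :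
    TP z (gP 0 μ) = Complex.exp (μ * z) • gP 0 μ := by
  funext r
  ext w
  rw [TP_gP le_rfl hμ, Pi.smul_apply, BoundedContinuousFunction.smul_apply, eP_apply hμ,
    smul_eq_mul, ← Complex.exp_add]
  congr 1
  push_cast
  ring

theorem TP_mapsTo_V (z : ℂ) : MapsTo (TP z) (V : Set P) (V : Set P) := by
  intro x hx
  have h : V ≤ V.comap (TP z).toLinearMap := by
    refine Submodule.span_le.2 ?_
    rintro y ⟨μ, hμ, rfl⟩
    change TP z (gP 0 μ) ∈ V
    rw [TP_eP hμ]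
    exact V.smul_mem _ (gP_mem_V hμ)
  exact h hx

theorem TP_mem {x : P} (hx : x ∈ X) (z : ℂ) : TP z x ∈ X :=
  (TP_mapsTo_V z).closure (TP z).continuous hx

/-- The translation group on `X`. -/
noncomputable def T (z : ℂ) : X →L[ℂ] X :=
  ((TP z).comp X.subtypeL).codRestrict X (fun x => TP_mem x.2 z)

theorem T_coe (z : ℂ) (x : X) : ((T z x : X) : P) = TP z x := rfl

/-- exponentials as elements of `X` -/
noncomputable def eX (μ : ℂ) (hμ : μ.re < 0) : X := ⟨gP 0 μ, gP_mem_X hμ⟩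

theorem T_eX (μ : ℂ) (hμ : μ.re < 0) (z : ℂ) : T z (eX μ hμ) = Complex.exp (μ * z) • eX μ hμ := by
  apply Subtype.ext
  rw [T_coe]
  exact TP_eP hμ z

/-- Continuous linear maps on `X` agreeing on exponentials are equal. -/
theorem ext_X {F : Type*} [AddCommGroup F] [Module ℂ F] [TopologicalSpace F] [T2Space F]
    {f g : X →L[ℂ] F} (h : ∀ (μ : ℂ) (hμ : μ.re < 0), f (eX μ hμ) = g (eX μ hμ)) : f = g := by
  have hd := dense_subtype (Y := X) {x | ∃ μ : ℂ, μ.re < 0 ∧ x = gP 0 μ} (by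
    rintro x ⟨μ, hμ, rfl⟩
    exact gP_mem_X hμ) (fun x hx => hx)
  refine ContinuousLinearMap.ext_on hd ?_
  rintro ⟨x, hx⟩ ⟨μ, hμ, hxe⟩
  have : (⟨x, hx⟩ : X) = eX μ hμ := Subtype.ext hxe
  rw [this]
  exact h μ hμ

theorem T_zero : T 0 = ContinuousLinearMap.id ℂ X := by
  refine ext_X fun μ hμ => ?_
  rw [T_eX]
  simp

theorem T_add (z w : ℂ) : T (z + w) = (T z).comp (T w) := by
  refine ext_X fun μ hμ => ?_
  rw [ContinuousLinearMap.comp_apply, T_eX, T_eX, map_smul, T_eX, smul_smul, ← Complex.exp_add]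
  congr 2
  ring

/-! ## Holomorphy -/

/-- elements of `V` are given by entire functions -/
theorem exists_entire {x : P} (hx : x ∈ V) :
    ∃ f : ℂ → ℂ, Differentiable ℂ f ∧ ∀ (r : ℕ) (w : D r), x r w = f w := by
  refine Submodule.span_induction ?_ ?_ ?_ ?_ hx
  · rintro x ⟨μ, hμ, rfl⟩
    exact ⟨fun w => Complex.exp (μ * w), by fun_prop, fun r w => eP_apply hμ r w⟩
  · exact ⟨fun _ => 0, by fun_prop, fun r w => rfl⟩
  · rintro x y _ _ ⟨f, hf, hf'⟩ ⟨g, hg, hg'⟩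
    refine ⟨fun w => f w + g w, hf.add hg, fun r w => ?_⟩
    rw [Pi.add_apply, BoundedContinuousFunction.add_apply, hf', hg']
  · rintro a x _ ⟨f, hf, hf'⟩
    refine ⟨fun w => a * f w, hf.const_mul a, fun r w => ?_⟩
    rw [Pi.smul_apply, BoundedContinuousFunction.smul_apply, hf', smul_eq_mul]

theorem norm_TP_sub_le_V {x : P} (hx : x ∈ V) {h : ℂ} (hh : ‖h‖ ≤ 1) (r : ℕ) :
    ‖(TP h x - x) r‖ ≤ ‖h‖ * ‖x (r + 2)‖ := by
  obtain ⟨f, hf, hf'⟩ := exists_entire hx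
  rw [BoundedContinuousFunction.norm_le (by positivity)]
  intro w
  rw [Pi.sub_apply, BoundedContinuousFunction.sub_apply, TP, shift_apply, hf', hf']
  have hbd : ∀ u : ℂ, ‖u - w‖ ≤ 2 → ‖f u‖ ≤ ‖x (r + 2)‖ := by
    intro u hu
    have hu' : u ∈ D (r + 2) := by
      have := add_mem_D w.2 (k := 2) (z := u - w) (by exact_mod_cast hu)
      rwa [add_sub_cancel] at this
    have := (x (r + 2)).norm_coe_le_norm ⟨u, hu'⟩
    rwa [hf'] at this
  have hderiv : ∀ u ∈ Metric.closedBall (w : ℂ) 1, ‖deriv f u‖ ≤ ‖x (r + 2)‖ := by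
    intro u hu
    have h1 := Complex.norm_deriv_le_of_forall_mem_sphere_norm_le (c := u) (R := 1) (f := f)
      (C := ‖x (r + 2)‖) one_pos hf.diffContOnCl (by
        intro v hv
        apply hbd
        rw [mem_sphere_iff_norm] at hv
        rw [mem_closedBall_iff_norm] at hu
        have : v - (w : ℂ) = (v - u) + (u - w) := by ring
        rw [this]
        refine (norm_add_le _ _).trans ?_
        linarith)
    simpa using h1
  have hw : (w : ℂ) ∈ Metric.closedBall (w : ℂ) 1 := Metric.mem_closedBall_self zero_le_one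
  have hwh : (w : ℂ) + h ∈ Metric.closedBall (w : ℂ) 1 := by
    rw [mem_closedBall_iff_norm]; simpa using hh
  have := (convex_closedBall (w : ℂ) 1).norm_image_sub_le_of_norm_deriv_le
    (fun u _ => hf u) hderiv hw hwh
  rw [add_sub_cancel_left] at this
  rw [mul_comm]
  exact this

theorem norm_TP_sub_le {x : P} (hx : x ∈ X) {h : ℂ} (hh : ‖h‖ ≤ 1) (r : ℕ) :
    ‖(TP h x - x) r‖ ≤ ‖h‖ * ‖x (r + 2)‖ := by
  have hcl : IsClosed {x : P | ‖(TP h x - x) r‖ ≤ ‖h‖ * ‖x (r + 2)‖} := by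
    apply isClosed_le
    · exact ((continuous_apply r).comp ((TP h).continuous.sub continuous_id)).norm
    · exact continuous_const.mul (continuous_apply (r + 2)).norm
  exact closure_minimal (fun y hy => norm_TP_sub_le_V hy hh r) hcl hx

/-- difference quotients converge on `V` -/
theorem tendsto_quot_V {x : P} (hx : x ∈ V) :
    ∃ y, Tendsto (fun h : ℂ => h⁻¹ • (TP h x - x)) (𝓝[≠] 0) (𝓝 y) := by
  refine Submodule.span_induction ?_ ?_ ?_ ?_ hx
  · rintro x ⟨μ, hμ, rfl⟩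
    refine ⟨μ • gP 0 μ, ?_⟩
    have h1 : HasDerivAt (fun h : ℂ => Complex.exp (μ * h)) μ 0 := by
      have h2 := (((hasDerivAt_id (0 : ℂ)).const_mul μ)).cexp
      simpa using h2
    rw [hasDerivAt_iff_tendsto_slope_zero] at h1
    have h3 := h1.smul_const (gP 0 μ)
    refine h3.congr fun h => ?_
    rw [TP_eP hμ, smul_assoc]
    congr 1
    simp [sub_smul]
  · refine ⟨0, ?_⟩
    simp
  · rintro x y _ _ ⟨a, ha⟩ ⟨b, hb⟩
    refine ⟨a + b, (ha.add hb).congr fun h => ?_⟩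
    rw [← smul_add, map_add]
    congr 1
    abel
  · rintro c x _ ⟨a, ha⟩
    refine ⟨c • a, (ha.const_smul c).congr fun h => ?_⟩
    rw [smul_comm, map_smul, smul_sub]

theorem tendsto_quot {x : P} (hx : x ∈ X) :
    ∃ y, Tendsto (fun h : ℂ => h⁻¹ • (TP h x - x)) (𝓝[≠] 0) (𝓝 y) := by
  suffices hcoord : ∀ r : ℕ, ∃ y : D r →ᵇ ℂ,
      Tendsto (fun h : ℂ => (h⁻¹ • (TP h x - x)) r) (𝓝[≠] 0) (𝓝 y) by
    choose y hy using hcoord
    exact ⟨y, tendsto_pi_nhds.2 hy⟩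
  intro r
  rw [← cauchy_map_iff_exists_tendsto, Metric.cauchy_iff]
  refine ⟨inferInstance, fun ε hε => ?_⟩
  -- approximate `x` by an element of `V`
  have hopen : IsOpen {y : P | ‖(x - y) (r + 2)‖ < ε / 4} := by
    apply isOpen_lt _ continuous_const
    exact ((continuous_apply (r + 2)).comp (continuous_const.sub continuous_id)).norm
  obtain ⟨y, hy, hyV⟩ := mem_closure_iff.1 hx _ hopen (by simp; positivity)
  obtain ⟨l, hl⟩ := tendsto_quot_V hyV
  have hlr := (tendsto_pi_nhds.1 hl r)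
  rw [Metric.tendsto_nhds] at hlr
  have hev1 := hlr (ε / 4) (by positivity)
  have hev2 : ∀ᶠ h : ℂ in 𝓝[≠] 0, ‖h‖ ≤ 1 := by
    apply eventually_nhdsWithin_of_eventually_nhds
    filter_upwards [Metric.closedBall_mem_nhds (0 : ℂ) one_pos] with t ht
    simpa using ht
  refine ⟨_, image_mem_map (inter_mem (inter_mem hev1 hev2) self_mem_nhdsWithin), ?_⟩
  have hkey : ∀ h : ℂ, ‖h‖ ≤ 1 → h ≠ 0 → dist ((h⁻¹ • (TP h y - y)) r) (l r) < ε / 4 →
      dist ((h⁻¹ • (TP h x - x)) r) (l r) < ε / 2 := by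
    intro h h1 h0 hd
    have e1 : dist ((h⁻¹ • (TP h x - x)) r) ((h⁻¹ • (TP h y - y)) r) < ε / 4 := by
      rw [dist_eq_norm]
      have e2 : (h⁻¹ • (TP h x - x)) r - (h⁻¹ • (TP h y - y)) r =
          h⁻¹ • ((TP h (x - y) - (x - y)) r) := by
        rw [map_sub]
        simp only [Pi.smul_apply, Pi.sub_apply, smul_sub]
        abel
      rw [e2, norm_smul, norm_inv]
      have e3 := norm_TP_sub_le (X.sub_mem hx (V_le_X hyV)) h1 r
      have hn : 0 < ‖h‖ := norm_pos_iff.2 h0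
      have hy' : ‖(x - y) (r + 2)‖ < ε / 4 := hy
      calc ‖h‖⁻¹ * ‖(TP h (x - y) - (x - y)) r‖ ≤ ‖h‖⁻¹ * (‖h‖ * ‖(x - y) (r + 2)‖) := by gcongr
        _ = ‖(x - y) (r + 2)‖ := by field_simp
        _ < ε / 4 := hy'
    have := dist_triangle ((h⁻¹ • (TP h x - x)) r) ((h⁻¹ • (TP h y - y)) r) (l r)
    linarith
  rintro _ ⟨h, ⟨⟨hh1, hh2⟩, hh3⟩, rfl⟩ _ ⟨h', ⟨⟨hh1', hh2'⟩, hh3'⟩, rfl⟩
  have a1 := hkey h hh2 hh3 hh1
  have a2 := hkey h' hh2' hh3' hh1'
  calc dist ((h⁻¹ • (TP h x - x)) r) ((h'⁻¹ • (TP h' x - x)) r)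
      ≤ dist ((h⁻¹ • (TP h x - x)) r) (l r) + dist (l r) ((h'⁻¹ • (TP h' x - x)) r) :=
        dist_triangle _ _ _
    _ < ε := by rw [dist_comm (l r)]; linarith

/-- The group is holomorphic. -/
theorem T_holomorphic (x : X) (z : ℂ) :
    ∃ y : X, Tendsto (fun h : ℂ => h⁻¹ • (T (z + h) x - T z x)) (𝓝[≠] 0) (𝓝 y) := by
  obtain ⟨y, hy⟩ := tendsto_quot x.2
  have hyX : y ∈ X := isClosed_X.mem_of_tendsto hy (Eventually.of_forall fun h =>
    X.smul_mem _ (X.sub_mem (TP_mem x.2 h) x.2))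
  have h1 : Tendsto (fun h : ℂ => h⁻¹ • (T h x - x)) (𝓝[≠] 0) (𝓝 (⟨y, hyX⟩ : X)) := by
    rw [tendsto_subtype_rng]
    exact hy
  refine ⟨T z ⟨y, hyX⟩, ?_⟩
  have h2 := ((T z).continuous.tendsto _).comp h1
  refine h2.congr fun h => ?_
  rw [Function.comp_apply, map_smul, map_sub, T_add]
  rfl

end Pool.Agent.Lib.MP_f7c330_an
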