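import Pool.Agent.Lib.MP_f7c330_an.Group
import Pool.Agent.Lib.MP_f7c330_an.Dyn

/-!
# Hypercyclicity of all the operators `a T_z`
-/

namespace Pool.Agent.Lib.MP_f7c330_an

open Filter Topology Set
open scoped BoundedContinuousFunction Uniformity

theorem smul_T_pow (a z : ℂ) (n : ℕ) : (a • T z) ^ n = a ^ n • T (n * z) := by
  induction n with
  | zero =>
    rw [pow_zero, pow_zero, one_smul, Nat.cast_zero, zero_mul, T_zero]
    rfl
  | succ n ih =>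
    rw [pow_succ, ih]
    ext1 x
    have e : ((n + 1 : ℕ) : ℂ) * z = n * z + z := by push_cast; ring
    rw [e, T_add]
    change a ^ n • T (n * z) (a • T z x) = a ^ (n + 1) • T (n * z) (T z x)
    rw [map_smul, smul_smul, pow_succ]

theorem pow_eX (a z : ℂ) (n : ℕ) (μ : ℂ) (hμ : μ.re < 0) :
    ((a • T z) ^ n) (eX μ hμ) = (a * Complex.exp (μ * z)) ^ n • eX μ hμ := by
  rw [smul_T_pow]
  change a ^ n • T (n * z) (eX μ hμ) = _
  rw [T_eX, smul_smul, mul_pow, ← Complex.exp_nat_mul]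
  congr 3
  ring

/-- the `Submodule` of `X` spanned by a set of elements of `P`. -/
noncomputable def spanX (S : Set P) : Submodule ℂ X :=
  Submodule.span ℂ ((Subtype.val : X → P) ⁻¹' S)

theorem tendsto_spanX {S : Set P} (A : ℕ → X →L[ℂ] X)
    (h : ∀ x : X, (x : P) ∈ S → Tendsto (fun k => A k x) atTop (𝓝 0)) :
    ∀ x ∈ (spanX S : Set X), Tendsto (fun k => A k x) atTop (𝓝 0) := by
  intro x hx
  refine Submodule.span_induction ?_ ?_ ?_ ?_ hx
  · intro x hx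
    exact h x hx
  · simp
  · intro x y _ _ h1 h2
    have := h1.add h2
    simpa using this
  · intro c x _ h1
    have := h1.const_smul c
    simpa using this

theorem tendsto_eigen {a z μ : ℂ} (hμ : μ.re < 0) (h : ‖a * Complex.exp (μ * z)‖ < 1) :
    Tendsto (fun k : ℕ => ((a • T z) ^ k) (eX μ hμ)) atTop (𝓝 0) := by
  have h1 : Tendsto (fun k : ℕ => (a * Complex.exp (μ * z)) ^ k) atTop (𝓝 0) :=
    tendsto_pow_atTop_nhds_zero_of_norm_lt_one h
  have h2 := h1.smul_const (eX μ hμ)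
  rw [zero_smul] at h2
  exact h2.congr fun k => (pow_eX a z k μ hμ).symm

/-! ### The Gaussian estimate -/

/-- times at which the orbit is in the middle of the gaps -/
noncomputable def gapTime (t : ℝ) (j : ℕ) : ℕ := ⌊(4 : ℝ) ^ j / t⌋₊

theorem gapTime_le {t : ℝ} (ht : 0 < t) (j : ℕ) : (gapTime t j : ℝ) ≤ 4 ^ j / t :=
  Nat.floor_le (by positivity)

theorem abs_gapTime_sub {t : ℝ} (ht : 0 < t) (j : ℕ) : |(gapTime t j : ℝ) * t - 4 ^ j| ≤ t := by
  have h1 := gapTime_le ht j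
  have h2 : (4 : ℝ) ^ j / t < gapTime t j + 1 := Nat.lt_floor_add_one _
  rw [le_div_iff₀ ht] at h1
  rw [div_lt_iff₀ ht] at h2
  rw [abs_le]
  constructor <;> nlinarith

theorem sq_norm_ge {r : ℕ} {w : ℂ} (hw : w ∈ D r) {t : ℝ} (ht : 0 < t) (j : ℕ) :
    (9 : ℝ) ^ j / 2 - (r + t) ^ 2 ≤ ‖w - ((gapTime t j : ℂ) * t)‖ ^ 2 := by
  obtain ⟨x, hx, hwx⟩ := hw
  have h1 := hx.2 j
  have h2 := abs_gapTime_sub ht j
  have h3 : (3 : ℝ) ^ j - (r + t) ≤ ‖w - ((gapTime t j : ℂ) * t)‖ := by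
    have e : ((x : ℂ) - (4 : ℂ) ^ j) = -(w - x) + (w - ((gapTime t j : ℂ) * t)) +
        (((gapTime t j : ℝ) * t - 4 ^ j : ℝ) : ℂ) := by
      push_cast; ring
    have e2 : ‖((x : ℂ) - (4 : ℂ) ^ j)‖ = |x - 4 ^ j| := by
      rw [← Real.norm_eq_abs, ← Complex.norm_real]
      push_cast
      rfl
    have e3 : ‖((x : ℂ) - (4 : ℂ) ^ j)‖ ≤ ‖w - x‖ + ‖w - ((gapTime t j : ℂ) * t)‖ +
        |(gapTime t j : ℝ) * t - 4 ^ j| := by
      rw [e]
      refine (norm_add_le _ _).trans ?_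
      refine add_le_add ((norm_add_le _ _).trans (by rw [norm_neg])) ?_
      rw [Complex.norm_real, Real.norm_eq_abs]
    rw [e2] at e3
    linarith
  have h9 : (9 : ℝ) ^ j = (3 ^ j) ^ 2 := by
    rw [← pow_mul, mul_comm, pow_mul]; norm_num
  rw [h9]
  set a : ℝ := (3 : ℝ) ^ j with ha
  set c : ℝ := (r : ℝ) + t with hc
  have hc0 : 0 ≤ c := by positivity
  rcases le_total a c with h | h
  · have ha0 : 0 ≤ a := by positivity
    nlinarith [sq_nonneg ‖w - ((gapTime t j : ℂ) * t)‖]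
  · have h5 : (a - c) ^ 2 ≤ ‖w - ((gapTime t j : ℂ) * t)‖ ^ 2 :=
      pow_le_pow_left₀ (by linarith) h3 2
    nlinarith [sq_nonneg (a - 2 * c)]

theorem gauss_shift_le {r : ℕ} {w : ℂ} (hw : w ∈ D r) {δ : ℝ} (hδ : 0 < δ) (μ : ℂ) (s : ℝ) :
    ‖Complex.exp (-(δ : ℂ) * (w - s) ^ 2 + μ * (w - s))‖ ≤
      Real.exp (-(δ / 2) * ‖w - s‖ ^ 2 + (2 * δ * r ^ 2 + ‖μ‖ ^ 2 / (2 * δ))) := by
  rw [Complex.norm_exp]
  apply Real.exp_le_exp.2
  rw [Complex.add_re]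
  have h1 : (μ * (w - s)).re ≤ ‖μ‖ * ‖w - s‖ := by
    rw [← norm_mul]; exact Complex.re_le_norm _
  have h2 : (-(δ : ℂ) * (w - s) ^ 2).re = -δ * (‖w - s‖ ^ 2 - 2 * w.im ^ 2) := by
    have e : ‖w - s‖ ^ 2 = (w.re - s) ^ 2 + w.im ^ 2 := by
      rw [← Complex.normSq_eq_norm_sq, Complex.normSq_apply]
      simp
      ring
    rw [e]
    have e3 : (-(δ : ℂ) * (w - s) ^ 2) = ((-δ : ℝ) : ℂ) * (w - s) ^ 2 := by push_cast; ring
    rw [e3, Complex.re_ofReal_mul]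
    congr 1
    simp [pow_two, Complex.mul_re]
    ring
  have h3 : w.im ^ 2 ≤ (r : ℝ) ^ 2 := by
    have h2 := abs_im_le hw
    exact sq_le_sq' (by linarith [(abs_le.1 h2).1]) (abs_le.1 h2).2
  have h4 : ‖μ‖ * ‖w - s‖ ≤ δ / 2 * ‖w - s‖ ^ 2 + ‖μ‖ ^ 2 / (2 * δ) := by
    have h5 : 0 ≤ (δ * ‖w - s‖ - ‖μ‖) ^ 2 / (2 * δ) := by positivity
    have h6 : (δ * ‖w - s‖ - ‖μ‖) ^ 2 / (2 * δ) =
        δ / 2 * ‖w - s‖ ^ 2 + ‖μ‖ ^ 2 / (2 * δ) - ‖μ‖ * ‖w - s‖ := by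
      field_simp
      ring
    linarith
  rw [h2]
  nlinarith

theorem tendsto_exponent (B K : ℝ) {c : ℝ} (hc : 0 < c) :
    Tendsto (fun j : ℕ => Real.exp (B * 4 ^ j - c * 9 ^ j + K)) atTop (𝓝 0) := by
  apply Real.tendsto_exp_atBot.comp
  have h1 : Tendsto (fun j : ℕ => (4 : ℝ) ^ j) atTop atTop :=
    tendsto_pow_atTop_atTop_of_one_lt (by norm_num)
  have h2 : Tendsto (fun j : ℕ => c * (9 / 4 : ℝ) ^ j) atTop atTop :=
    (tendsto_pow_atTop_atTop_of_one_lt (by norm_num)).const_mul_atTop hc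
  have h3 : Tendsto (fun j : ℕ => c * (9 / 4 : ℝ) ^ j - B) atTop atTop :=
    tendsto_atTop_add_const_right _ _ h2
  have h4 := h1.atTop_mul_atTop₀ h3
  have h5 := tendsto_neg_atTop_atBot.comp h4
  have h6 := tendsto_atBot_add_const_right _ K h5
  refine h6.congr fun j => ?_
  simp only [Function.comp_apply]
  have : (9 : ℝ) ^ j = 4 ^ j * (9 / 4) ^ j := by
    rw [← mul_pow]; norm_num
  rw [this]
  ring

/-- Along the gap times, Gaussians translated into the gaps tend to zero, even after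
multiplication by exponentially growing factors. -/
theorem tendsto_gauss {t : ℝ} (ht : 0 < t) (b : ℂ) {δ : ℝ} (hδ : 0 < δ) {μ : ℂ} (hμ : μ.re < 0) :
    Tendsto (fun j : ℕ => b ^ gapTime t j • TP (-((gapTime t j : ℂ) * t)) (gP δ μ)) atTop
      (𝓝 0) := by
  rw [tendsto_pi_nhds]
  intro r
  rw [tendsto_iff_norm_sub_tendsto_zero]
  set K : ℝ := δ / 2 * (r + t) ^ 2 + (2 * δ * r ^ 2 + ‖μ‖ ^ 2 / (2 * δ)) with hK
  refine squeeze_zero (fun j => norm_nonneg _) (fun j => ?_)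
    (tendsto_exponent (‖b‖ / t) K (c := δ / 4) (by positivity))
  rw [BoundedContinuousFunction.norm_le (Real.exp_pos _).le]
  intro w
  rw [BoundedContinuousFunction.sub_apply, Pi.zero_apply, BoundedContinuousFunction.coe_zero,
    Pi.zero_apply, sub_zero, Pi.smul_apply, BoundedContinuousFunction.smul_apply, TP_gP hδ.le hμ, smul_eq_mul,
    norm_mul, norm_pow]
  set n := gapTime t j with hn
  have e : (w : ℂ) + -((n : ℂ) * t) = w - ((n * t : ℝ) : ℂ) := by push_cast; ring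
  rw [e]
  have h1 := gauss_shift_le w.2 hδ μ (n * t)
  have h2 := sq_norm_ge w.2 ht j
  have e2 : (w : ℂ) - (gapTime t j : ℂ) * t = w - ((n * t : ℝ) : ℂ) := by push_cast; rfl
  rw [e2] at h2
  have h3 : ‖b‖ ^ n ≤ Real.exp (‖b‖ / t * 4 ^ j) := by
    have h4 : ‖b‖ ≤ Real.exp ‖b‖ := by linarith [Real.add_one_le_exp ‖b‖]
    calc ‖b‖ ^ n ≤ Real.exp ‖b‖ ^ n := pow_le_pow_left₀ (norm_nonneg _) h4 n
      _ = Real.exp (n * ‖b‖) := by rw [← Real.exp_nat_mul]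
      _ ≤ _ := by
        apply Real.exp_le_exp.2
        have := mul_le_mul_of_nonneg_right (gapTime_le ht j) (norm_nonneg b)
        refine this.trans (le_of_eq ?_)
        ring
  calc ‖b‖ ^ n * ‖Complex.exp (-(δ : ℂ) * (w - ((n * t : ℝ) : ℂ)) ^ 2 +
          μ * (w - ((n * t : ℝ) : ℂ)))‖
      ≤ Real.exp (‖b‖ / t * 4 ^ j) * Real.exp (-(δ / 2) * ‖(w : ℂ) - ((n * t : ℝ) : ℂ)‖ ^ 2 +
        (2 * δ * r ^ 2 + ‖μ‖ ^ 2 / (2 * δ))) := mul_le_mul h3 h1 (norm_nonneg _) (Real.exp_pos _).le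
    _ ≤ Real.exp (‖b‖ / t * 4 ^ j) * Real.exp (-(δ / 4) * 9 ^ j + K) := by
        apply mul_le_mul_of_nonneg_left _ (Real.exp_pos _).le
        apply Real.exp_le_exp.2
        rw [hK]
        nlinarith
    _ = Real.exp (‖b‖ / t * 4 ^ j - δ / 4 * 9 ^ j + K) := by
        rw [← Real.exp_add]; congr 1; ring

/-! ### Hypercyclicity -/

theorem smul_T_inv {a z : ℂ} (ha : a ≠ 0) (x : X) : (a • T z) ((a⁻¹ • T (-z)) x) = x := by
  change a • T z (a⁻¹ • T (-z) x) = x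
  rw [map_smul, smul_smul, mul_inv_cancel₀ ha, one_smul]
  have := T_add z (-z)
  rw [add_neg_cancel, T_zero] at this
  have h2 := congrArg (fun f : X →L[ℂ] X => f x) this
  exact h2.symm

theorem dense_eigen {Ω : Set ℂ} (hΩ : IsOpen Ω) (hne : Ω.Nonempty)
    (hΩ' : Ω ⊆ {μ : ℂ | μ.re < 0}) : Dense (spanX {x | ∃ μ ∈ Ω, x = gP 0 μ} : Set X) :=
  dense_subtype (Y := X) _ (by
    rintro x ⟨μ, hμ, rfl⟩
    exact gP_mem_X (hΩ' hμ)) (X_subset_closure_span hΩ hne hΩ')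

theorem dense_gauss : Dense (spanX
    {x | ∃ (δ : ℝ) (μ : ℂ), 0 < δ ∧ μ.re < 0 ∧ x = gP δ μ} : Set X) :=
  dense_subtype (Y := X) _ (by
    rintro x ⟨δ, μ, hδ, hμ, rfl⟩
    exact gauss_mem_X hδ hμ) X_subset_closure_gauss

theorem tendsto_eigen_span {a z : ℂ} {Ω : Set ℂ} (hΩ' : Ω ⊆ {μ : ℂ | μ.re < 0})
    (h : ∀ μ ∈ Ω, ‖a * Complex.exp (μ * z)‖ < 1) (n : ℕ → ℕ) (hn : Tendsto n atTop atTop) :
    ∀ x ∈ (spanX {x | ∃ μ ∈ Ω, x = gP 0 μ} : Set X),
      Tendsto (fun k => ((a • T z) ^ (n k)) x) atTop (𝓝 0) := by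
  refine tendsto_spanX (fun k => (a • T z) ^ (n k)) ?_
  rintro ⟨x, hx⟩ ⟨μ, hμ, hxe⟩
  have : (⟨x, hx⟩ : X) = eX μ (hΩ' hμ) := Subtype.ext hxe
  rw [this]
  exact (tendsto_eigen (hΩ' hμ) (h μ hμ)).comp hn

theorem tendsto_gapTime {t : ℝ} (ht : 0 < t) : Tendsto (gapTime t) atTop atTop := by
  apply tendsto_nat_floor_atTop.comp
  apply Tendsto.atTop_div_const ht
  exact tendsto_pow_atTop_atTop_of_one_lt (by norm_num)

theorem tendsto_gauss_span {t : ℝ} (ht : 0 < t) (b : ℂ) :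
    ∀ x ∈ (spanX {x | ∃ (δ : ℝ) (μ : ℂ), 0 < δ ∧ μ.re < 0 ∧ x = gP δ μ} : Set X),
      Tendsto (fun k => ((b • T (-(t : ℂ))) ^ (gapTime t k)) x) atTop (𝓝 0) := by
  refine tendsto_spanX (fun k => (b • T (-(t : ℂ))) ^ (gapTime t k)) ?_
  rintro ⟨x, hx⟩ ⟨δ, μ, hδ, hμ, hxe⟩
  rw [tendsto_subtype_rng]
  have h1 := tendsto_gauss ht b hδ hμ
  rw [← show x = gP δ μ from hxe] at h1
  refine h1.congr fun k => ?_
  rw [smul_T_pow]
  have e : (gapTime t k : ℂ) * -(t : ℂ) = -((gapTime t k : ℂ) * t) := by ring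
  rw [e]
  rfl

/-- Case A: eigenvalues on both sides of the unit circle. -/
theorem hyper_caseA {a z : ℂ} (ha : a ≠ 0) {μ₁ μ₂ : ℂ} (h₁ : μ₁.re < 0) (h₂ : μ₂.re < 0)
    (h₁' : ‖a * Complex.exp (μ₁ * z)‖ < 1) (h₂' : 1 < ‖a * Complex.exp (μ₂ * z)‖) :
    ∃ x, Dense (range fun m : ℕ => ((a • T z) ^ m) x) := by
  set Ω₁ : Set ℂ := {μ | μ.re < 0 ∧ ‖a * Complex.exp (μ * z)‖ < 1} with hΩ₁
  set Ω₂ : Set ℂ := {μ | μ.re < 0 ∧ 1 < ‖a * Complex.exp (μ * z)‖} with hΩ₂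
  have hc : Continuous fun μ : ℂ => ‖a * Complex.exp (μ * z)‖ := by fun_prop
  have o₁ : IsOpen Ω₁ := isOpen_halfPlane.inter (isOpen_lt hc continuous_const)
  have o₂ : IsOpen Ω₂ := isOpen_halfPlane.inter (isOpen_lt continuous_const hc)
  refine criterion (a • T z) (a⁻¹ • T (-z)) (smul_T_inv ha) _ _
    (dense_eigen o₁ ⟨μ₁, h₁, h₁'⟩ fun μ hμ => hμ.1)
    (dense_eigen o₂ ⟨μ₂, h₂, h₂'⟩ fun μ hμ => hμ.1) id ?_ ?_
  · exact tendsto_eigen_span (fun μ hμ => hμ.1) (fun μ hμ => hμ.2) id tendsto_id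
  · refine tendsto_eigen_span (fun μ hμ => hμ.1) (fun μ hμ => ?_) id tendsto_id
    have h3 := hμ.2
    have e : a⁻¹ * Complex.exp (μ * -z) = (a * Complex.exp (μ * z))⁻¹ := by
      rw [mul_inv, ← Complex.exp_neg]; congr 2; ring
    rw [e, norm_inv]
    exact inv_lt_one_of_one_lt₀ h3

/-- Case B: `z = t > 0` and `|a| ≤ 1`. -/
theorem hyper_caseB {a : ℂ} (ha : a ≠ 0) {t : ℝ} (ht : 0 < t) (ha1 : ‖a‖ ≤ 1) :
    ∃ x, Dense (range fun m : ℕ => ((a • T (t : ℂ)) ^ m) x) := by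
  refine criterion (a • T (t : ℂ)) (a⁻¹ • T (-(t : ℂ))) (smul_T_inv ha) _ _
    (dense_eigen isOpen_halfPlane ⟨-1, by simp⟩ fun μ hμ => hμ) dense_gauss (gapTime t) ?_ ?_
  · refine tendsto_eigen_span (fun μ hμ => hμ) (fun μ hμ => ?_) _ (tendsto_gapTime ht)
    have hμ' : μ.re < 0 := hμ
    rw [norm_mul, Complex.norm_exp]
    have : (μ * (t : ℂ)).re < 0 := by
      rw [Complex.mul_re]; simp; nlinarith
    have h2 : Real.exp ((μ * (t : ℂ)).re) < 1 := Real.exp_lt_one_iff.2 this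
    nlinarith [Real.exp_pos ((μ * (t : ℂ)).re), norm_pos_iff.2 ha]
  · exact tendsto_gauss_span ht a⁻¹

/-- Case C: `z = -t < 0` and `|a| ≥ 1`. -/
theorem hyper_caseC {a : ℂ} (ha : a ≠ 0) {t : ℝ} (ht : 0 < t) (ha1 : 1 ≤ ‖a‖) :
    ∃ x, Dense (range fun m : ℕ => ((a • T (-(t : ℂ))) ^ m) x) := by
  refine criterion (a • T (-(t : ℂ))) (a⁻¹ • T (-(-(t : ℂ)))) (smul_T_inv ha) _ _
    dense_gauss (dense_eigen isOpen_halfPlane ⟨-1, by simp⟩ fun μ hμ => hμ) (gapTime t) ?_ ?_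
  · exact tendsto_gauss_span ht a
  · refine tendsto_eigen_span (fun μ hμ => hμ) (fun μ hμ => ?_) _ (tendsto_gapTime ht)
    have hμ' : μ.re < 0 := hμ
    rw [norm_mul, Complex.norm_exp, neg_neg, norm_inv]
    have : (μ * (t : ℂ)).re < 0 := by
      rw [Complex.mul_re]; simp; nlinarith
    have h2 : Real.exp ((μ * (t : ℂ)).re) < 1 := Real.exp_lt_one_iff.2 this
    have h3 : ‖a‖⁻¹ ≤ 1 := inv_le_one_of_one_le₀ ha1
    have h4 : 0 < ‖a‖⁻¹ := by positivity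
    nlinarith [Real.exp_pos ((μ * (t : ℂ)).re)]

/-- All the operators `a T_z` are hypercyclic. -/
theorem hyper_all {a z : ℂ} (ha : a ≠ 0) (hz : z ≠ 0) :
    ∃ x, Dense (range fun m : ℕ => ((a • T z) ^ m) x) := by
  have hna : 0 < ‖a‖ := norm_pos_iff.2 ha
  have key : ∀ μ : ℂ, ‖a * Complex.exp (μ * z)‖ =
      Real.exp (Real.log ‖a‖ + (μ.re * z.re - μ.im * z.im)) := by
    intro μ
    rw [norm_mul, Complex.norm_exp, Real.exp_add, Real.exp_log hna, Complex.mul_re]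
  by_cases him : z.im = 0
  · have hzre : z = (z.re : ℂ) := by
      apply Complex.ext <;> simp [him]
    have hre : z.re ≠ 0 := by
      intro h; apply hz; rw [hzre, h]; simp
    rcases lt_or_gt_of_ne hre with hneg | hpos
    · -- z < 0
      rcases lt_or_ge ‖a‖ 1 with h | h
      · -- case A
        have hlog : Real.log ‖a‖ < 0 := Real.log_neg hna h
        refine hyper_caseA ha (μ₁ := ((-Real.log ‖a‖ / 2) / z.re : ℝ))
          (μ₂ := ((-Real.log ‖a‖ + 1) / z.re : ℝ)) ?_ ?_ ?_ ?_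
        · rw [Complex.ofReal_re]; exact div_neg_of_pos_of_neg (by linarith) hneg
        · rw [Complex.ofReal_re]; exact div_neg_of_pos_of_neg (by linarith) hneg
        · rw [key, Complex.ofReal_re, Complex.ofReal_im, div_mul_cancel₀ _ hre, zero_mul, sub_zero,
            Real.exp_lt_one_iff]
          linarith
        · rw [key, Complex.ofReal_re, Complex.ofReal_im, div_mul_cancel₀ _ hre, zero_mul, sub_zero,
            Real.one_lt_exp_iff]
          linarith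
      · have e : z = -((-z.re : ℝ) : ℂ) := by
          rw [Complex.ofReal_neg, neg_neg]; exact hzre
        rw [e]
        exact hyper_caseC ha (by linarith) h
    · rcases le_or_gt ‖a‖ 1 with h | h
      · rw [hzre]
        exact hyper_caseB ha hpos h
      · have hlog : 0 < Real.log ‖a‖ := Real.log_pos h
        refine hyper_caseA ha (μ₁ := ((-Real.log ‖a‖ - 1) / z.re : ℝ))
          (μ₂ := ((-Real.log ‖a‖ / 2) / z.re : ℝ)) ?_ ?_ ?_ ?_
        · rw [Complex.ofReal_re]; exact div_neg_of_neg_of_pos (by linarith) hpos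
        · rw [Complex.ofReal_re]; exact div_neg_of_neg_of_pos (by linarith) hpos
        · rw [key, Complex.ofReal_re, Complex.ofReal_im, div_mul_cancel₀ _ hre, zero_mul, sub_zero,
            Real.exp_lt_one_iff]
          linarith
        · rw [key, Complex.ofReal_re, Complex.ofReal_im, div_mul_cancel₀ _ hre, zero_mul, sub_zero,
            Real.one_lt_exp_iff]
          linarith
  · refine hyper_caseA ha (μ₁ := ⟨-1, (Real.log ‖a‖ - z.re + 1) / z.im⟩)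
      (μ₂ := ⟨-1, (Real.log ‖a‖ - z.re - 1) / z.im⟩) (by simp) (by simp) ?_ ?_
    · rw [key, div_mul_cancel₀ _ him, Real.exp_lt_one_iff]
      linarith
    · rw [key, div_mul_cancel₀ _ him, Real.one_lt_exp_iff]
      linarith

end Pool.Agent.Lib.MP_f7c330_an
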