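import Pool.Agent.Lib.MP_f7c330_an.Hyper

/-!
# No common hypercyclic vector for `e^{-s} T_1`, `1 ≤ s ≤ 2`
-/

namespace Pool.Agent.Lib.MP_f7c330_an

open Filter Topology Set MeasureTheory
open scoped BoundedContinuousFunction Uniformity ENNReal

theorem zero_mem_D (r : ℕ) : (0 : ℂ) ∈ D r := mem_D_of_norm_le (by simp)

/-- evaluation at `0` -/
noncomputable def ev0 : X →L[ℂ] ℂ :=
  ((BoundedContinuousFunction.evalCLM ℂ (⟨0, zero_mem_D 0⟩ : D 0)).comp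
    (ContinuousLinearMap.proj 0)).comp X.subtypeL

theorem ev0_apply (x : X) : ev0 x = (x : P) 0 ⟨0, zero_mem_D 0⟩ := rfl

theorem ev0_eX (μ : ℂ) (hμ : μ.re < 0) : ev0 (eX μ hμ) = 1 := by
  rw [ev0_apply]
  change gP 0 μ 0 ⟨0, _⟩ = 1
  rw [eP_apply hμ]
  simp

theorem natCast_mem_D {n : ℕ} (hn : (n : ℝ) ∈ E) : (n : ℂ) ∈ D 0 :=
  ⟨n, hn, by simp⟩

theorem ev0_T {n : ℕ} (hn : (n : ℝ) ∈ E) (x : X) :
    ev0 (T n x) = (x : P) 0 ⟨n, natCast_mem_D hn⟩ := by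
  have h : ev0.comp (T n) = ((BoundedContinuousFunction.evalCLM ℂ
      (⟨n, natCast_mem_D hn⟩ : D 0)).comp (ContinuousLinearMap.proj 0)).comp X.subtypeL := by
    refine ext_X fun μ hμ => ?_
    rw [ContinuousLinearMap.comp_apply, T_eX, map_smul, ev0_eX, smul_eq_mul, mul_one]
    change _ = gP 0 μ 0 ⟨n, _⟩
    rw [eP_apply hμ]
  exact congrArg (fun f : X →L[ℂ] ℂ => f x) h

theorem norm_ev0_T_le {n : ℕ} (hn : (n : ℝ) ∈ E) (x : X) : ‖ev0 (T n x)‖ ≤ ‖(x : P) 0‖ := by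
  rw [ev0_T hn]
  exact ((x : P) 0).norm_coe_le_norm _

/-- integers outside `E` lie in a window around a power of `4` -/
theorem exists_window {n : ℕ} (hn : (n : ℝ) ∉ E) :
    ∃ j : ℕ, n ∈ Finset.Ioo (4 ^ j - 3 ^ j) (4 ^ j + 3 ^ j) := by
  have h : ¬ (0 ≤ (n : ℝ) ∧ ∀ j : ℕ, (3 : ℝ) ^ j ≤ |(n : ℝ) - 4 ^ j|) := hn
  push Not at h
  obtain ⟨j, hj⟩ := h (Nat.cast_nonneg n)
  refine ⟨j, ?_⟩
  rw [Finset.mem_Ioo]
  rw [abs_lt] at hj
  have h34 : 3 ^ j ≤ 4 ^ j := Nat.pow_le_pow_left (by norm_num) j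
  constructor
  · have h1 : ((4 : ℝ) ^ j) < n + 3 ^ j := by linarith [hj.1]
    have h2 : 4 ^ j < n + 3 ^ j := by exact_mod_cast h1
    omega
  · have h1 : (n : ℝ) < 4 ^ j + 3 ^ j := by linarith [hj.2]
    exact_mod_cast h1

theorem window_large {n j : ℕ} (hn : n ∈ Finset.Ioo (4 ^ j - 3 ^ j) (4 ^ j + 3 ^ j))
    (hN : 4 ^ 15 ≤ n) : 15 ≤ j := by
  by_contra hcon
  have hj : j ≤ 14 := by omega
  rw [Finset.mem_Ioo] at hn
  have h1 : 4 ^ j ≤ 4 ^ 14 := Nat.pow_le_pow_right (by norm_num) hj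
  have h2 : 3 ^ j ≤ 3 ^ 14 := Nat.pow_le_pow_right (by norm_num) hj
  have h3 : 4 ^ 14 + 3 ^ 14 < 4 ^ 15 := by norm_num
  omega

theorem two_div_le {n j : ℕ} (hj : 1 ≤ j) (hn : n ∈ Finset.Ioo (4 ^ j - 3 ^ j) (4 ^ j + 3 ^ j)) :
    (2 : ℝ) / n ≤ 8 / 4 ^ j := by
  rw [Finset.mem_Ioo] at hn
  have h34 : 4 * 3 ^ j ≤ 3 * 4 ^ j := by
    obtain ⟨i, rfl⟩ : ∃ i, j = i + 1 := ⟨j - 1, by omega⟩
    have : 3 ^ i ≤ 4 ^ i := Nat.pow_le_pow_left (by norm_num) i
    rw [pow_succ, pow_succ]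
    omega
  have h1 : 4 ^ j ≤ 4 * n := by omega
  have h4 : 0 < 4 ^ j := by positivity
  have hn0 : 0 < n := by omega
  have h2 : (4 : ℝ) ^ j ≤ 4 * n := by exact_mod_cast h1
  rw [div_le_div_iff₀ (by exact_mod_cast hn0) (by positivity)]
  linarith

theorem card_window_le (j : ℕ) : ((Finset.Ioo (4 ^ j - 3 ^ j) (4 ^ j + 3 ^ j)).card : ℝ) ≤
    2 * 3 ^ j := by
  rw [Nat.card_Ioo]
  have h34 : 3 ^ j ≤ 4 ^ j := Nat.pow_le_pow_left (by norm_num) j
  have : 4 ^ j + 3 ^ j - (4 ^ j - 3 ^ j) - 1 ≤ 2 * 3 ^ j := by omega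
  calc ((4 ^ j + 3 ^ j - (4 ^ j - 3 ^ j) - 1 : ℕ) : ℝ) ≤ ((2 * 3 ^ j : ℕ) : ℝ) := by
        exact_mod_cast this
    _ = 2 * 3 ^ j := by push_cast; ring

theorem log_bound {c : ℝ} (hc : 2 ≤ c) : Real.log (c + 1) - Real.log (c - 1) ≤ 2 := by
  rw [← Real.log_div (by linarith) (by linarith)]
  have h1 : (c + 1) / (c - 1) ≤ 3 := by
    rw [div_le_iff₀ (by linarith)]; linarith
  have h2 : Real.log ((c + 1) / (c - 1)) ≤ (c + 1) / (c - 1) - 1 :=
    Real.log_le_sub_one_of_pos (div_pos (by linarith) (by linarith))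
  linarith

/-- No vector of `X` is hypercyclic for all `e^{-s} T_1`, `1 ≤ s ≤ 2`. -/
theorem no_common (x : X) (h : ∀ s ∈ Icc (1 : ℝ) 2,
    Dense (range fun m : ℕ => ((((Real.exp (-s) : ℝ) : ℂ) • T 1) ^ m) x)) : False := by
  set F : ℕ → ℝ := fun n => ‖ev0 (T n x)‖ with hF
  set M : ℝ := ‖(x : P) 0‖ with hM
  have hM0 : 0 ≤ M := norm_nonneg _
  obtain ⟨N, hNdef⟩ : ∃ N : ℕ, N = 4 ^ 15 := ⟨_, rfl⟩
  set Sg : ℝ := ∑ n ∈ Finset.range N, F n with hSg
  have hSg0 : 0 ≤ Sg := Finset.sum_nonneg fun n _ => norm_nonneg _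
  set c : ℝ := 2 + M + Sg with hc
  have hc2 : 2 ≤ c := by linarith
  -- visits
  have hvisit : ∀ s ∈ Icc (1 : ℝ) 2, ∃ n : ℕ, c - 1 < Real.exp (-(s * n)) * F n ∧
      Real.exp (-(s * n)) * F n < c + 1 := by
    intro s hs
    have hopen : IsOpen {y : X | ‖ev0 y - c‖ < 1} :=
      isOpen_lt ((ev0.continuous.sub continuous_const).norm) continuous_const
    have hne : ({y : X | ‖ev0 y - c‖ < 1}).Nonempty := by
      refine ⟨(c : ℂ) • eX (-1) (by simp), ?_⟩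
      simp [ev0_eX]
    obtain ⟨y, ⟨n, rfl⟩, hy⟩ := (h s hs).exists_mem_open hopen hne
    refine ⟨n, ?_⟩
    have hy' : ‖ev0 (((((Real.exp (-s) : ℝ) : ℂ) • T 1) ^ n) x) - c‖ < 1 := hy
    rw [smul_T_pow, mul_one] at hy'
    change ‖ev0 ((((Real.exp (-s) : ℝ) : ℂ)) ^ n • T n x) - c‖ < 1 at hy'
    rw [map_smul] at hy'
    have e : ‖(((Real.exp (-s) : ℝ) : ℂ)) ^ n • ev0 (T n x)‖ = Real.exp (-(s * n)) * F n := by
      rw [norm_smul, norm_pow, Complex.norm_real, Real.norm_of_nonneg (Real.exp_pos _).le,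
        ← Real.exp_nat_mul]
      congr 2
      ring
    have hcn : ‖(c : ℂ)‖ = c := by
      rw [Complex.norm_real, Real.norm_of_nonneg (by linarith)]
    constructor
    · have := norm_sub_norm_le (c : ℂ) ((((Real.exp (-s) : ℝ) : ℂ)) ^ n • ev0 (T n x))
      rw [norm_sub_rev, hcn, e] at this
      linarith
    · have := norm_sub_norm_le ((((Real.exp (-s) : ℝ) : ℂ)) ^ n • ev0 (T n x)) (c : ℂ)
      rw [hcn, e] at this
      linarith
  -- the exceptional intervals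
  set I : ℕ → Set ℝ := fun n =>
    Icc ((Real.log (F n) - Real.log (c + 1)) / n) ((Real.log (F n) - Real.log (c - 1)) / n) with hI
  set W : ℕ → Finset ℕ := fun j => Finset.Ioo (4 ^ j - 3 ^ j) (4 ^ j + 3 ^ j) with hW
  have hcover : Icc (1 : ℝ) 2 ⊆ ⋃ i : ℕ, ⋃ n ∈ W (i + 15), I n := by
    intro s hs
    obtain ⟨n, hn1, hn2⟩ := hvisit s hs
    have hs0 : 0 < s := by linarith [hs.1]
    have hexp1 : Real.exp (-(s * n)) ≤ 1 := by
      rw [Real.exp_le_one_iff]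
      have : 0 ≤ s * n := by positivity
      linarith
    have hFn : c - 1 < F n := by
      refine hn1.trans_le ?_
      exact mul_le_of_le_one_left (norm_nonneg _) hexp1
    have hFpos : 0 < F n := by linarith
    have hN : N ≤ n := by
      by_contra hcon
      have h1 : F n ≤ Sg := Finset.single_le_sum (f := F) (fun i _ => norm_nonneg _)
        (Finset.mem_range.2 (not_le.1 hcon))
      linarith
    have hnE : (n : ℝ) ∉ E := by
      intro hmem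
      have h1 : F n ≤ M := norm_ev0_T_le hmem x
      linarith
    obtain ⟨j, hj⟩ := exists_window hnE
    have hj15 := window_large hj (hNdef ▸ hN)
    have hnpos : (0 : ℝ) < n := by
      have : 0 < n := lt_of_lt_of_le (by rw [hNdef]; positivity) hN
      exact_mod_cast this
    refine mem_iUnion.2 ⟨j - 15, mem_iUnion₂.2 ⟨n, ?_, ?_⟩⟩
    · rw [Nat.sub_add_cancel hj15]; exact hj
    · have hl1 := Real.log_lt_log (by linarith) hn1
      have hl2 := Real.log_lt_log (by positivity) hn2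
      rw [Real.log_mul (Real.exp_pos _).ne' hFpos.ne', Real.log_exp] at hl1 hl2
      constructor
      · rw [div_le_iff₀ hnpos]; linarith
      · rw [le_div_iff₀ hnpos]; linarith
  -- measure estimate
  have hIvol : ∀ i : ℕ, ∀ n ∈ W (i + 15), volume (I n) ≤ ENNReal.ofReal (8 / 4 ^ (i + 15)) := by
    intro i n hn
    rw [hI]
    simp only
    rw [Real.volume_Icc]
    apply ENNReal.ofReal_le_ofReal
    have h1 := two_div_le (by omega) hn
    refine le_trans ?_ h1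
    rw [← sub_div]
    have h2 := log_bound hc2
    have h3 : Real.log (F n) - Real.log (c - 1) - (Real.log (F n) - Real.log (c + 1)) ≤ 2 := by
      linarith
    exact div_le_div_of_nonneg_right h3 (Nat.cast_nonneg n)
  have hWvol : ∀ i : ℕ, volume (⋃ n ∈ W (i + 15), I n) ≤
      ENNReal.ofReal (16 * (3 / 4) ^ (i + 15)) := by
    intro i
    refine (measure_biUnion_finset_le _ _).trans ?_
    refine (Finset.sum_le_sum (hIvol i)).trans ?_
    rw [Finset.sum_const, nsmul_eq_mul]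
    have h1 := card_window_le (i + 15)
    have e : ((W (i + 15)).card : ℝ≥0∞) * ENNReal.ofReal (8 / 4 ^ (i + 15)) =
        ENNReal.ofReal ((W (i + 15)).card * (8 / 4 ^ (i + 15))) := by
      rw [ENNReal.ofReal_mul (Nat.cast_nonneg _), ENNReal.ofReal_natCast]
    rw [e]
    apply ENNReal.ofReal_le_ofReal
    calc ((W (i + 15)).card : ℝ) * (8 / 4 ^ (i + 15)) ≤ (2 * 3 ^ (i + 15)) * (8 / 4 ^ (i + 15)) := by
          gcongr
      _ = 16 * (3 / 4) ^ (i + 15) := by rw [div_pow]; ring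
  have htot : volume (⋃ i : ℕ, ⋃ n ∈ W (i + 15), I n) ≤
      ENNReal.ofReal (16 * (3 / 4) ^ 15 * (1 - 3 / 4)⁻¹) := by
    refine (measure_iUnion_le _).trans ?_
    refine (ENNReal.tsum_le_tsum hWvol).trans ?_
    have hs : HasSum (fun i : ℕ => 16 * (3 / 4 : ℝ) ^ (i + 15))
        (16 * (3 / 4) ^ 15 * (1 - 3 / 4)⁻¹) := by
      have h1 := (hasSum_geometric_of_lt_one (r := (3 / 4 : ℝ)) (by norm_num)
        (by norm_num)).mul_left (16 * (3 / 4) ^ 15)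
      have h2 : (fun i : ℕ => 16 * (3 / 4 : ℝ) ^ (i + 15)) =
          fun i : ℕ => 16 * (3 / 4 : ℝ) ^ 15 * (3 / 4) ^ i := by
        funext i; rw [pow_add]; ring
      rw [h2]
      exact h1
    rw [← ENNReal.ofReal_tsum_of_nonneg (fun i => by positivity) hs.summable, hs.tsum_eq]
  have hfinal : volume (Icc (1 : ℝ) 2) ≤
      ENNReal.ofReal (16 * (3 / 4) ^ 15 * (1 - 3 / 4)⁻¹) :=
    (measure_mono hcover).trans htot
  rw [Real.volume_Icc, ENNReal.ofReal_le_ofReal_iff (by norm_num)] at hfinal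
  norm_num at hfinal

end Pool.Agent.Lib.MP_f7c330_an
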