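import Mathlib

/-!
# The Frechet space `X` and its Gaussian/exponential vectors
-/

namespace Pool.Agent.Lib.MP_f7c330_an

open Filter Topology Set
open scoped BoundedContinuousFunction

/-- The closed subset of the half-line left after removing the gaps
`(4^j - 3^j, 4^j + 3^j)`. -/
def E : Set ℝ := {x | 0 ≤ x ∧ ∀ j : ℕ, (3 : ℝ) ^ j ≤ |x - 4 ^ j|}

/-- The closed-`r`-neighbourhood type sets of `E` in the plane. -/
def D (r : ℕ) : Set ℂ := {w | ∃ x ∈ E, ‖w - (x : ℂ)‖ ≤ r}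

/-- The ambient Frechet space: a countable product of Banach spaces. -/
abbrev P : Type := ∀ r : ℕ, (D r →ᵇ ℂ)

theorem zero_mem_E : (0 : ℝ) ∈ E := by
  refine ⟨le_rfl, fun j => ?_⟩
  rw [zero_sub, abs_neg, abs_of_nonneg (by positivity)]
  exact pow_le_pow_left₀ (by norm_num) (by norm_num) j

theorem mem_D_of_norm_le {w : ℂ} {r : ℕ} (h : ‖w‖ ≤ r) : w ∈ D r :=
  ⟨0, zero_mem_E, by simpa using h⟩

theorem add_mem_D {w z : ℂ} {r k : ℕ} (hw : w ∈ D r) (hz : ‖z‖ ≤ k) : w + z ∈ D (r + k) := by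
  obtain ⟨x, hx, h⟩ := hw
  refine ⟨x, hx, ?_⟩
  have : w + z - x = (w - x) + z := by ring
  rw [this]
  push_cast
  exact (norm_add_le _ _).trans (add_le_add h hz)

theorem D_mono {r s : ℕ} (h : r ≤ s) {w : ℂ} (hw : w ∈ D r) : w ∈ D s := by
  obtain ⟨x, hx, h'⟩ := hw
  exact ⟨x, hx, h'.trans (by exact_mod_cast h)⟩

theorem re_ge {w : ℂ} {r : ℕ} (hw : w ∈ D r) : -(r : ℝ) ≤ w.re := by
  obtain ⟨x, hx, h⟩ := hw
  have h1 := (Complex.abs_re_le_norm (w - x)).trans h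
  have h2 := (abs_le.1 h1).1
  simp at h2
  linarith [hx.1]

theorem abs_im_le {w : ℂ} {r : ℕ} (hw : w ∈ D r) : |w.im| ≤ (r : ℝ) := by
  obtain ⟨x, hx, h⟩ := hw
  have h1 := (Complex.abs_im_le_norm (w - x)).trans h
  simpa using h1

theorem norm_le_re {w : ℂ} {r : ℕ} (hw : w ∈ D r) : ‖w‖ ≤ w.re + 3 * r := by
  have h1 := Complex.norm_le_abs_re_add_abs_im w
  have h2 := abs_im_le hw
  have h3 := re_ge hw
  have h4 : |w.re| ≤ w.re + 2 * r := by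
    rw [abs_le]; constructor <;> linarith
  linarith

/-- The main bound on exponentials. -/
theorem re_mul_le {w μ : ℂ} {r : ℕ} (hw : w ∈ D r) (hμ : μ.re < 0) :
    (μ * w).re ≤ 4 * r * ‖μ‖ + μ.re * ‖w‖ := by
  have h1 := norm_le_re hw
  have h2 := abs_im_le hw
  have h3 : |μ.re| ≤ ‖μ‖ := Complex.abs_re_le_norm μ
  have h4 : |μ.im| ≤ ‖μ‖ := Complex.abs_im_le_norm μ
  have h5 : -(μ.im * w.im) ≤ ‖μ‖ * r := by
    have : |μ.im * w.im| ≤ ‖μ‖ * r := by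
      rw [abs_mul]; exact mul_le_mul h4 h2 (abs_nonneg _) (norm_nonneg _)
    exact (neg_le_abs _).trans this
  have h6 : μ.re * (w.re + 3 * r) ≤ μ.re * ‖w‖ := mul_le_mul_of_nonpos_left h1 hμ.le
  have h7 : -(μ.re * (3 * r)) ≤ 3 * r * ‖μ‖ := by
    have h8 : -μ.re ≤ ‖μ‖ := (neg_le_abs _).trans h3
    have h9 : (0 : ℝ) ≤ 3 * r := by positivity
    nlinarith
  rw [Complex.mul_re]
  nlinarith

theorem gauss_re_le {w : ℂ} {r : ℕ} (hw : w ∈ D r) {δ : ℝ} (hδ : 0 ≤ δ) :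
    (-(δ : ℂ) * w ^ 2).re ≤ δ * r ^ 2 := by
  have h2 := abs_im_le hw
  have h3 : w.im ^ 2 ≤ (r : ℝ) ^ 2 := sq_le_sq' (by linarith [(abs_le.1 h2).1]) (abs_le.1 h2).2
  have : (-(δ : ℂ) * w ^ 2).re = -δ * (w.re ^ 2 - w.im ^ 2) := by
    simp [pow_two, Complex.mul_re]
  rw [this]
  nlinarith [sq_nonneg w.re, mul_nonneg hδ (sq_nonneg w.re)]

/-- Norm bound for the Gaussian-exponential functions. -/
theorem norm_gauss_le {w μ : ℂ} {r : ℕ} (hw : w ∈ D r) {δ : ℝ} (hδ : 0 ≤ δ) (hμ : μ.re < 0) :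
    ‖Complex.exp (-(δ : ℂ) * w ^ 2 + μ * w)‖ ≤
      Real.exp (δ * r ^ 2 + 4 * r * ‖μ‖) * Real.exp (μ.re * ‖w‖) := by
  rw [Complex.norm_exp, ← Real.exp_add, Complex.add_re]
  apply Real.exp_le_exp.2
  linarith [gauss_re_le hw hδ, re_mul_le hw hμ]

theorem norm_gauss_le' {w μ : ℂ} {r : ℕ} (hw : w ∈ D r) {δ : ℝ} (hδ : 0 ≤ δ) (hμ : μ.re < 0) :
    ‖Complex.exp (-(δ : ℂ) * w ^ 2 + μ * w)‖ ≤ Real.exp (δ * r ^ 2 + 4 * r * ‖μ‖) := by
  refine (norm_gauss_le hw hδ hμ).trans ?_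
  apply mul_le_of_le_one_right (Real.exp_pos _).le
  rw [Real.exp_le_one_iff]
  exact mul_nonpos_of_nonpos_of_nonneg hμ.le (norm_nonneg _)

open Classical in
/-- The Gaussian-exponential `w ↦ exp (-δ w² + μ w)` as an element of `P`
(junk value `0` unless `0 ≤ δ` and `Re μ < 0`). -/
noncomputable def gP (δ : ℝ) (μ : ℂ) : P := fun r =>
  if h : 0 ≤ δ ∧ μ.re < 0 then
    BoundedContinuousFunction.ofNormedAddCommGroup
      (fun w : D r => Complex.exp (-(δ : ℂ) * (w : ℂ) ^ 2 + μ * w))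
      (by fun_prop) (Real.exp (δ * r ^ 2 + 4 * r * ‖μ‖))
      (fun w => norm_gauss_le' w.2 h.1 h.2)
  else 0

theorem gP_apply {δ : ℝ} {μ : ℂ} (hδ : 0 ≤ δ) (hμ : μ.re < 0) (r : ℕ) (w : D r) :
    gP δ μ r w = Complex.exp (-(δ : ℂ) * (w : ℂ) ^ 2 + μ * w) := by
  unfold gP
  rw [dif_pos ⟨hδ, hμ⟩]
  rfl

theorem eP_apply {μ : ℂ} (hμ : μ.re < 0) (r : ℕ) (w : D r) :
    gP 0 μ r w = Complex.exp (μ * w) := by
  rw [gP_apply le_rfl hμ]
  simp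

/-- The span of the exponentials `e^{μ w}` with `Re μ < 0`. -/
noncomputable def V : Submodule ℂ P := Submodule.span ℂ {x | ∃ μ : ℂ, μ.re < 0 ∧ x = gP 0 μ}

/-- The Frechet space `X`. -/
noncomputable def X : Submodule ℂ P := V.topologicalClosure

theorem V_le_X : V ≤ X := V.le_topologicalClosure

theorem isClosed_X : IsClosed (X : Set P) := V.isClosed_topologicalClosure

theorem gP_mem_V {μ : ℂ} (hμ : μ.re < 0) : gP 0 μ ∈ V := Submodule.subset_span ⟨μ, hμ, rfl⟩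

theorem gP_mem_X {μ : ℂ} (hμ : μ.re < 0) : gP 0 μ ∈ X := V_le_X (gP_mem_V hμ)

/-- polynomial times exponential decay is bounded -/
theorem pow_mul_exp_le (k : ℕ) {c x : ℝ} (hc : 0 < c) (hx : 0 ≤ x) :
    x ^ k * Real.exp (-c * x) ≤ k.factorial / c ^ k := by
  have h1 := Real.pow_div_factorial_le_exp (c * x) (by positivity) k
  have h2 : (0 : ℝ) < k.factorial := by positivity
  rw [div_le_iff₀ h2] at h1
  rw [neg_mul, Real.exp_neg, ← div_eq_mul_inv, div_le_div_iff₀ (Real.exp_pos _) (by positivity)]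
  calc x ^ k * c ^ k = (c * x) ^ k := by rw [mul_pow]; ring
    _ ≤ _ := h1
    _ = _ := by ring

theorem norm_exp_sub_one_le' (z : ℂ) {M : ℝ} (hM : z.re ≤ M) :
    ‖Complex.exp z - 1‖ ≤ (2 + Real.exp M) * ‖z‖ := by
  rcases le_total ‖z‖ 1 with h | h
  · have := Complex.norm_exp_sub_one_le h
    nlinarith [norm_nonneg z, Real.exp_pos M, mul_nonneg (Real.exp_pos M).le (norm_nonneg z)]
  · have h1 : ‖Complex.exp z - 1‖ ≤ Real.exp M + 1 := by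
      refine (norm_sub_le _ _).trans ?_
      rw [Complex.norm_exp, norm_one]
      have := Real.exp_le_exp.2 hM
      linarith
    nlinarith [Real.exp_pos M, mul_le_mul_of_nonneg_left h (Real.exp_pos M).le]

/-- `e^{-δ w²} e^{μ w} → e^{μ w}` in `P` as `δ → 0+`. -/
theorem tendsto_gP_zero {μ : ℂ} (hμ : μ.re < 0) :
    Tendsto (fun n : ℕ => gP (1 / ((n : ℝ) + 1)) μ) atTop (𝓝 (gP 0 μ)) := by
  rw [tendsto_pi_nhds]
  intro r
  rw [tendsto_iff_norm_sub_tendsto_zero]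
  set C : ℝ := Real.exp (4 * r * ‖μ‖) * (2 + Real.exp ((r : ℝ) ^ 2)) *
    ((Nat.factorial 2 : ℝ) / (-μ.re) ^ 2) with hC
  have hμ' : 0 < -μ.re := by linarith
  have hC0 : 0 ≤ C := by positivity
  have hlim : Tendsto (fun n : ℕ => C * (1 / ((n : ℝ) + 1))) atTop (𝓝 0) := by
    have := (tendsto_one_div_add_atTop_nhds_zero_nat (𝕜 := ℝ)).const_mul C
    simpa using this
  refine squeeze_zero (fun n => norm_nonneg _) (fun n => ?_) hlim
  set δ : ℝ := 1 / ((n : ℝ) + 1) with hδ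
  have hδ0 : 0 ≤ δ := by positivity
  have hδ1 : δ ≤ 1 := by
    rw [hδ, div_le_one (by positivity)]
    linarith [(Nat.cast_nonneg n : (0 : ℝ) ≤ n)]
  rw [BoundedContinuousFunction.norm_le (by positivity)]
  intro w
  rw [BoundedContinuousFunction.sub_apply, gP_apply hδ0 hμ, eP_apply hμ]
  have e1 : Complex.exp (-(δ : ℂ) * (w : ℂ) ^ 2 + μ * w) - Complex.exp (μ * w) =
      Complex.exp (μ * w) * (Complex.exp (-(δ : ℂ) * (w : ℂ) ^ 2) - 1) := by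
    rw [Complex.exp_add]; ring
  rw [e1, norm_mul]
  have h1 : ‖Complex.exp (μ * w)‖ ≤ Real.exp (4 * r * ‖μ‖) * Real.exp (μ.re * ‖(w : ℂ)‖) := by
    rw [Complex.norm_exp, ← Real.exp_add]
    exact Real.exp_le_exp.2 (re_mul_le w.2 hμ)
  have h2 : ‖Complex.exp (-(δ : ℂ) * (w : ℂ) ^ 2) - 1‖ ≤
      (2 + Real.exp ((r : ℝ) ^ 2)) * (δ * ‖(w : ℂ)‖ ^ 2) := by
    have h3 : (-(δ : ℂ) * (w : ℂ) ^ 2).re ≤ (r : ℝ) ^ 2 := by
      refine (gauss_re_le w.2 hδ0).trans ?_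
      nlinarith [sq_nonneg (r : ℝ)]
    refine (norm_exp_sub_one_le' _ h3).trans (le_of_eq ?_)
    rw [norm_mul, norm_neg, norm_pow, Complex.norm_real, Real.norm_of_nonneg hδ0]
  have h4 := pow_mul_exp_le 2 hμ' (norm_nonneg (w : ℂ))
  rw [neg_neg] at h4
  calc ‖Complex.exp (μ * w)‖ * ‖Complex.exp (-(δ : ℂ) * (w : ℂ) ^ 2) - 1‖
      ≤ (Real.exp (4 * r * ‖μ‖) * Real.exp (μ.re * ‖(w : ℂ)‖)) *
        ((2 + Real.exp ((r : ℝ) ^ 2)) * (δ * ‖(w : ℂ)‖ ^ 2)) :=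
        mul_le_mul h1 h2 (norm_nonneg _) (by positivity)
    _ = Real.exp (4 * r * ‖μ‖) * (2 + Real.exp ((r : ℝ) ^ 2)) *
        (‖(w : ℂ)‖ ^ 2 * Real.exp (μ.re * ‖(w : ℂ)‖)) * δ := by ring
    _ ≤ Real.exp (4 * r * ‖μ‖) * (2 + Real.exp ((r : ℝ) ^ 2)) *
        ((Nat.factorial 2 : ℝ) / (-μ.re) ^ 2) * δ := by gcongr
    _ = C * δ := by rw [hC]

end Pool.Agent.Lib.MP_f7c330_an
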